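import Pool.Agent.TPQ.StQ1

/-!
# TPQ, module GRP (helper47): the groups `Nx A` and `Fx A`
-/

set_option autoImplicit false
set_option linter.unusedVariables false

namespace Pool.Agent.TPQ

open FirstOrder.Language Set
open scoped FirstOrder
open Pool.Agent.WOM (tp Mon IsEl IsoM CtU Fx Orb Isd)
open Pool.Agent.MNO (Nx nx_comp nx_symm nx_fx)

/-- the group `Nx A` -/
theorem grp_nx {L : FirstOrder.Language.{0, 0}} {U : Type} [L.Structure U] {A : Set U} (hA : A.Finite) :
    Grp L A (Nx L A) :=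
  ⟨hA, fun _ h => h, fun _ h => nx_fx h, fun _ _ hg hh => nx_comp hg hh, fun _ h => nx_symm h⟩

/-- the group `Fx A` -/
theorem grp_fx {L : FirstOrder.Language.{0, 0}} {U : Type} [L.Structure U] {A : Set U} (hA : A.Finite) :
    Grp L A (Fx L A) :=
  ⟨hA, fun _ h => nx_fx h, fun _ h => h, fun g h hg hh => Pool.Agent.PMC.fx_comp hg hh,
    fun _ h => Pool.Agent.PMC.fx_symm h⟩

/-- [GRP] -/
theorem thm_GRP : St_GRP := fun _ _ _ _ hA => ⟨grp_nx hA, grp_fx hA⟩

end Pool.Agent.TPQ
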