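import Pool.Agent.TPC.ALLZ

/-!
# TPQ: the `L₁(T)` clause of full T6 (helper47), first part: the game, base change, splitting, glueing, atomic models

Everything is inside the countable saturated model `U` (`Mon L U`).  `L₁(T)` is the fragment of `L_(ω₁ω)` generated by the
first-order formulas and the complete types.  We use a game with TYPED moves: the elements chosen are conjugate to
elements of a finite set `S`; the atoms are the orbits of tuples and the invariant definable relations.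

`G` is `Fx A` or `Nx A` or a group in between (`Grp L A G`).  `Tg G Φ S X Y m p`: the position `p` (a set of pairs, left
entries in `X`, right entries in `Y`) is won by the second player in `m` rounds.  `Teq G X Y p`: for all tests.
`Tel G X Y` (for `X ⊆ Y`): `X` is an elementary part of `Y` for this game.

Convention: module XXX is the file `Pool/Agent/TPQ/XXX.lean` with `theorem thm_XXX (hAAA : St_AAA) .. : St_XXX`, the
hypotheses are the modules of the files StQ1, StQ2, StQ3 cited in the docstring of `St_XXX` (`HYPS`).  The old statements are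
unconditional: `TPC.q_XXX` (`TPC/API.lean`, for `TPC/StA` .. `StE`), `TPC.z_XXX` (`TPC/ALLZ.lean`, for `TPC/StZ`).  Tools:
`MNO/Kit.lean` (`dp_..`), `MNO/NBA.lean` (`fe_..`, `sq_..`, `nx_..`), `MNO/STG.lean` (`nx_of_sq`), `MNO/NFE.lean` (`nx_fe`,
`nx_meets`, `nx_meets'`, `fe_meets`), `MNO.thm_BAG` (back and forth).  `g.comp h` is `g ∘ h`.
-/

set_option autoImplicit false
set_option linter.unusedVariables false

namespace Pool.Agent.TPQ

open FirstOrder.Language Set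
open scoped FirstOrder
open Pool.Agent.WOM (tp Mon IsEl IsoM CtU Fx Orb Isd)
open Pool.Agent.PMC (Sm Md NPf)
open Pool.Agent.MNO (Dp FE Sq Nx SmN FE1 FinN)
open Pool.Agent.TPC (Bq Pq Lin Fre Kl Lab Iv Nice Inr Cpt Big Ist Clu Rgd Fcp)

section defs

variable (L : FirstOrder.Language.{0, 0}) {U : Type} [L.Structure U]

/-- `G` is a group of automorphisms between `Nx A` and `Fx A` -/
structure Grp (A : Set U) (G : (U ≃[L] U) → Prop) : Prop where
  fin : A.Finite
  nx : ∀ g, Nx L A g → G g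
  fx : ∀ g, G g → Fx L A g
  mul : ∀ g h, G g → G h → G (g.comp h)
  inv : ∀ g, G g → G g.symm

/-- tuples which are pairwise in the relation `D` are orthogonal over `A` -/
structure Orth (A : Set U) (D : U → U → Prop) : Prop where
  fin : A.Finite
  inv : ∀ g : U ≃[L] U, Nx L A g → ∀ u v, D u v → D (g u) (g v)
  ort : ∀ S W : Set U, S.Finite → W.Finite → (∀ s ∈ S, ∀ w ∈ W, D s w) →
    ∀ g g' : U ≃[L] U, Nx L A g → Nx L A g' → (∀ s ∈ S, ∀ w ∈ W, D (g s) (g' w)) →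
    ∃ h : U ≃[L] U, Nx L A h ∧ (∀ x ∈ S, h x = g x) ∧ ∀ x ∈ W, h x = g' x

variable {L}

/-- conjugate elements -/
def Cg (G : (U ≃[L] U) → Prop) (x y : U) : Prop := ∃ g : U ≃[L] U, G g ∧ g x = y

/-- conjugate tuples -/
def Cgt (G : (U ≃[L] U) → Prop) {α : Type} (x y : α → U) : Prop :=
  ∃ g : U ≃[L] U, G g ∧ ∀ i, g (x i) = y i

/-- `x` is typed by `S`: conjugate to an element of `S` -/
def Tp (G : (U ≃[L] U) → Prop) (S : Set U) (x : U) : Prop := ∃ s ∈ S, Cg G s x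

/-- atoms: invariant relations which are orbits or definable over a finite set -/
structure At (G : (U ≃[L] U) → Prop) {α : Type} (R : (α → U) → Prop) : Prop where
  inv : ∀ g, G g → ∀ x, R x → R (fun i => g (x i))
  dfn : (∃ t : α → U, ∀ x, R x ↔ Cgt G t x) ∨ ∃ B : Set U, B.Finite ∧ Dp L B R

/-- a test: finitely many atoms, finitely many elements -/
structure Tst (G : (U ≃[L] U) → Prop) (Φ : Set ((n : ℕ) × ((Fin n → U) → Prop))) (S : Set U) : Prop where
  fin : Φ.Finite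
  atm : ∀ a ∈ Φ, At G a.2
  fns : S.Finite

/-- the relations in `Φ` are preserved by the pairs in `p` -/
def Okp (Φ : Set ((n : ℕ) × ((Fin n → U) → Prop))) (p : Set (U × U)) : Prop :=
  ∀ a ∈ Φ, ∀ f : Fin a.1 → U × U, (∀ i, f i ∈ p) →
    (a.2 (fun i => (f i).1) ↔ a.2 (fun i => (f i).2))

/-- the game with typed moves -/
def Tg (G : (U ≃[L] U) → Prop) (Φ : Set ((n : ℕ) × ((Fin n → U) → Prop))) (S X Y : Set U) :
    ℕ → Set (U × U) → Prop
  | 0, p => Okp Φ p
  | m + 1, p => Okp Φ p ∧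
      (∀ x ∈ X, Tp G S x → ∃ y ∈ Y, Cg G x y ∧ Tg G Φ S X Y m (insert (x, y) p)) ∧
      ∀ y ∈ Y, Tp G S y → ∃ x ∈ X, Cg G x y ∧ Tg G Φ S X Y m (insert (x, y) p)

/-- equivalence for all tests -/
def Teq (G : (U ≃[L] U) → Prop) (X Y : Set U) (p : Set (U × U)) : Prop :=
  ∀ Φ S m, Tst G Φ S → Tg G Φ S X Y m p

/-- the diagonal over `s` -/
def dg (s : Set U) : Set (U × U) := (fun a => (a, a)) '' s

/-- `X ⊆ Y` is an elementary part for the game -/
def Tel (G : (U ≃[L] U) → Prop) (X Y : Set U) : Prop :=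
  ∀ s : Set U, s.Finite → s ⊆ X → Teq G X Y (dg s)

/-- `e` is a bijection of `X` and `Y` which is locally in `G` -/
def Lbj (G : (U ≃[L] U) → Prop) (X Y : Set U) (e : U → U) : Prop :=
  BijOn e X Y ∧ ∀ s : Set U, s.Finite → s ⊆ X → ∃ g : U ≃[L] U, G g ∧ ∀ x ∈ s, g x = e x

/-- the type of the tuple `a` in `N` is isolated (among the types in `N`) -/
def Isl (G : (U ≃[L] U) → Prop) (N : Set U) {n : ℕ} (a : Fin n → U) : Prop :=
  ∃ Φ S m, Tst G Φ S ∧ ∀ a' : Fin n → U, (∀ i, a' i ∈ N) →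
    Tg G Φ S N N m (range fun i => (a i, a' i)) → Teq G N N (range fun i => (a i, a' i))

end defs

/-! ### The game -/

/-- [GAM] calculus of the game.
HYPS: none.
PROOF.  (1), (2), (3), (5) induction on the number of rounds (`Okp` is clear; in (1) first `m' = m`, then
`Tg (m + 1) p → Tg m p` by induction; in (3) `Grp.mul`; `insert (x, z) r` is composed from `insert (x, y) p` and `insert (y, z) q`).
(4) `Okp`: for `f` take `g ∈ G` which agrees with `e` on the entries `(f i).1`; `At.inv` for `g` and `g⁻¹`.  Moves: `y = e x`,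
`x ∈ X` with `e x = y`.  (6), (7) induction on `N` (`Fin.snoc` / `Fin.cons`; (1)); conjugates of typed elements are not needed:
every `y i` is typed.  (8) (4) for `e = id`.  (9) `e : Fin n ≃ α`, `a = ⟨n, fun v => R (v ∘ e⁻¹)⟩`; orbits go to orbits, `dp_sub`. -/
def St_GAM : Prop :=
  ∀ (L : FirstOrder.Language.{0, 0}) (U : Type) [L.Structure U] (A : Set U) (G : (U ≃[L] U) → Prop),
    Grp L A G →
    (∀ (Φ Φ' : Set ((n : ℕ) × ((Fin n → U) → Prop))) (S S' X Y : Set U) (m m' : ℕ) (p p' : Set (U × U)),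
      Φ' ⊆ Φ → S' ⊆ S → m' ≤ m → p' ⊆ p → Tg G Φ S X Y m p → Tg G Φ' S' X Y m' p') ∧
    (∀ (Φ : Set ((n : ℕ) × ((Fin n → U) → Prop))) (S X Y : Set U) (m : ℕ) (p : Set (U × U)),
      Tg G Φ S X Y m p → Tg G Φ S Y X m (Prod.swap '' p)) ∧
    (∀ (Φ : Set ((n : ℕ) × ((Fin n → U) → Prop))) (S X Y Z : Set U) (m : ℕ) (p q r : Set (U × U)),
      (∀ c ∈ r, ∃ b, (c.1, b) ∈ p ∧ (b, c.2) ∈ q) →
      Tg G Φ S X Y m p → Tg G Φ S Y Z m q → Tg G Φ S X Z m r) ∧
    (∀ (Φ : Set ((n : ℕ) × ((Fin n → U) → Prop))) (S X Y : Set U) (m : ℕ) (p : Set (U × U)) (e : U → U),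
      Tst G Φ S → Lbj G X Y e → (∀ c ∈ p, c.1 ∈ X ∧ c.2 = e c.1) → Tg G Φ S X Y m p) ∧
    (∀ (Φ : Set ((n : ℕ) × ((Fin n → U) → Prop))) (S X Y Q : Set U) (m : ℕ) (p : Set (U × U)),
      (∀ g, G g → ∀ x, g x ∈ Q ↔ x ∈ Q) → Tg G Φ S X Y m p → Tg G Φ S (X ∩ Q) (Y ∩ Q) m p) ∧
    (∀ (Φ : Set ((n : ℕ) × ((Fin n → U) → Prop))) (S X Y : Set U) (m N : ℕ) (p : Set (U × U))
      (y : Fin N → U), (∀ i, y i ∈ Y ∧ Tp G S (y i)) → Tg G Φ S X Y (m + N) p →
      ∃ x : Fin N → U, (∀ i, x i ∈ X ∧ Cg G (x i) (y i)) ∧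
        Tg G Φ S X Y m (p ∪ range fun i => (x i, y i))) ∧
    (∀ (Φ : Set ((n : ℕ) × ((Fin n → U) → Prop))) (S X Y : Set U) (m N : ℕ) (p : Set (U × U))
      (x : Fin N → U), (∀ i, x i ∈ X ∧ Tp G S (x i)) → Tg G Φ S X Y (m + N) p →
      ∃ y : Fin N → U, (∀ i, y i ∈ Y ∧ Cg G (x i) (y i)) ∧
        Tg G Φ S X Y m (p ∪ range fun i => (x i, y i))) ∧
    (∀ (Φ : Set ((n : ℕ) × ((Fin n → U) → Prop))) (S X s : Set U) (m : ℕ),
      Tst G Φ S → s ⊆ X → Tg G Φ S X X m (dg s)) ∧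
    ∀ (α : Type) [Finite α] (R : (α → U) → Prop), At G R →
      ∃ a : (n : ℕ) × ((Fin n → U) → Prop), At G a.2 ∧ ∀ p : Set (U × U), Okp {a} p →
        ∀ f : α → U × U, (∀ i, f i ∈ p) → (R (fun i => (f i).1) ↔ R (fun i => (f i).2))

/-- [LBJ] local bijections.
HYPS: none.
PROOF.  (1) `id`; (2) the inverse `e'` (as `LCL_G_symm` in `TPC/LCL.lean`); (3) composition; (4) an element of `G`; (5) (→) extend `e` by
anything (as `LCL_G_of_SmN` in `TPC/LCL.lean`); (←) `BijOn.equiv`; (6) restriction. -/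
def St_LBJ : Prop :=
  ∀ (L : FirstOrder.Language.{0, 0}) (U : Type) [L.Structure U] (A : Set U) (G : (U ≃[L] U) → Prop),
    Grp L A G →
    (∀ X : Set U, Lbj G X X id) ∧
    (∀ (X Y : Set U) (e : U → U), Lbj G X Y e → ∃ e', Lbj G Y X e' ∧ (∀ x ∈ X, e' (e x) = x) ∧
      ∀ y ∈ Y, e (e' y) = y) ∧
    (∀ (X Y Z : Set U) (e e' : U → U), Lbj G X Y e → Lbj G Y Z e' → Lbj G X Z (e' ∘ e)) ∧
    (∀ (X : Set U) (g : U ≃[L] U), G g → Lbj G X (g '' X) g) ∧
    (∀ X Y : Set U, SmN L A X Y ↔ ∃ e, Lbj (Nx L A) X Y e) ∧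
    ∀ (X Y Q : Set U) (e : U → U), (∀ g, G g → ∀ x, g x ∈ Q ↔ x ∈ Q) → Lbj G X Y e →
      Lbj G (X ∩ Q) (Y ∩ Q) e

/-- [GRP] the two groups.
HYPS: none.
PROOF.  `nx_fx`, `nx_comp`, `nx_symm`; `PMC.fx_comp`, `fx_symm`. -/
def St_GRP : Prop :=
  ∀ (L : FirstOrder.Language.{0, 0}) (U : Type) [L.Structure U] (A : Set U), A.Finite →
    Grp L A (Nx L A) ∧ Grp L A (Fx L A)

/-- [TCJ] the game and automorphisms.
HYPS: none.
PROOF.  Let `Φ`, `S'` be a test for `Nx (h '' A)`.  `Φh = {⟨n, fun v => R (h ∘ v)⟩ | ⟨n, R⟩ ∈ Φ}`, `Sh = h⁻¹ '' S'`: a test for `Nx A`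
(`nx_conj` for `h.symm`, `h.symm '' (h '' A) = A`; `dp_img` for `h.symm`; the orbit of `t` under `Nx (h '' A)` corresponds to the orbit of
`h⁻¹ ∘ t` under `Nx A`).  By induction on `m`: `Tg (Nx A) Φh Sh X Y m p → Tg (Nx (h '' A)) Φ S' (h '' X) (h '' Y) m ((h × h) '' p)`.  The diagonal over
`s ⊆ h '' X` is the image of the diagonal over `h⁻¹ '' s`. -/
def St_TCJ : Prop :=
  ∀ (L : FirstOrder.Language.{0, 0}) (U : Type) [L.Structure U], Mon L U → ∀ (A X Y : Set U) (h : U ≃[L] U),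
    A.Finite → Tel (Nx L A) X Y → Tel (Nx L (h '' A)) (h '' X) (h '' Y)

/-! ### Compactness, splitting, glueing -/

/-- [UNI] compactness.
HYPS: none.
PROOF.  Otherwise for every family `F` of relations with `FE A (F i)` some `x` satisfies `P x` and all `F i (..) (..)`.  `dp_sat` over
`A ∪ B ∪ range c` for the properties `P` and `F (.. f i ..) (.. f' i ..)`, `i : ι`, `FE A F` (`dp_sub`, `dp_par` for the constants `c`); finitely many of them:
for every `i` take a common refinement (`fe_inf`).  The `x` obtained satisfies `P x` and all the `Sq`: contradiction.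
(Compare the proof of `nx_fe`, `MNO/NFE.lean`.) -/
def St_UNI : Prop :=
  ∀ (L : FirstOrder.Language.{0, 0}) (U : Type) [L.Structure U], Mon L U → ∀ (A B : Set U) (α γ ι : Type)
    [Finite α] [Finite γ] [Finite ι] (κ : ι → Type) [∀ i, Finite (κ i)] (c : γ → U) (P : (α → U) → Prop)
    (f f' : (i : ι) → κ i → γ ⊕ α), A.Finite → B.Finite → Dp L B P →
    (∀ x, P x → ¬ ∀ i, Sq L A (fun j => Sum.elim c x (f i j)) (fun j => Sum.elim c x (f' i j))) →
    ∃ F : (i : ι) → (κ i → U) → (κ i → U) → Prop, (∀ i, FE L A (F i)) ∧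
      ∀ x, P x → ¬ ∀ i, F i (fun j => Sum.elim c x (f i j)) (fun j => Sum.elim c x (f' i j))

/-- [ORQ] two orthogonality relations.
HYPS: none.
PROOF.  (1) `S`, `W` nonempty: `S ⊆ Q` and `W ⊆ Qᶜ` or conversely; say `S ⊆ Q`: glue `g'⁻¹ ∘ g` on `Q` (`Bq.glu`): `k` (identity outside `Q`),
`h = g' ∘ k`.  (2) Let `S`, `W` be nonempty.  Either `W ⊆ E`: let `S1 = S ∩ E`; `Fre.ort` for `S1`, `W`: `h1` in `Nx A`, `h1 = g` on `S1`, `h1 = g'` on `W`; glue
`g⁻¹ ∘ h1` on `E` (`Fre.bq`): `k`; `h = g ∘ k` is `h1` on `E` and `g` outside.  Or some `w0 ∈ W` is not in `E`: then `S ⊆ E`; the same with the roles of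
`S`, `W` exchanged.  If `S = ∅`: `h = g'`; if `W = ∅`: `h = g`. -/
def St_ORQ : Prop :=
  ∀ (L : FirstOrder.Language.{0, 0}) (U : Type) [L.Structure U], Mon L U → ∀ A : Set U, A.Finite →
    (∀ Q : Set U, Bq L A Q → Orth L A (fun u v => ¬ (u ∈ Q ↔ v ∈ Q))) ∧
    ∀ (E : Set U) (cl : U → U → Prop), Fre L A E cl →
      Orth L A (fun u v => (u ∈ E ∨ v ∈ E) ∧ ¬ (u ∈ E ∧ v ∈ E ∧ cl u v))

/-- [SPL] splitting an atom along orthogonal parts of typed tuples.
HYPS: UNI.
PROOF.  If `I` is empty then `x' = x`.  Let `ι : Fin k → Fin n` be an enumeration of `I`.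
(i) `R` is the orbit of `t`.  `Φ = {⟨k, orbit of t ∘ ι⟩}`.  Let `R x`, `x = g t`; `x' ∘ ι = g' (t ∘ ι)`.  `S1` = the `t i`, `i ∈ I`, `W1` = the `t j`,
`j ∉ I`.  `D (t i) (t j)` (`inv` for `g⁻¹`), `D (g' (t i)) (g (t j)) = D (x' i) (x j)`.  `ort`: `h` in `Nx A`, `h = g'` on `S1`, `h = g` on `W1`: `x' = h t`, `R x'`.
The converse is the same.
(ii) `R` is `Dp B`.  By `ort` (for single elements) any two pairs in `D` with entries in the same orbits are conjugate under `Nx A`; for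
`s, s' ∈ S` let `δ(s, s')` be such a pair with entries in the orbits of `s` and `s'` (if there is one).  For every `τ : Fin n → S` (finitely many) such
that all `δ(τ i, τ j)`, `i ∈ I`, `j ∉ I`, exist: UNI for the variables `(x, x')`, `P := R x ∧ ¬ R x' ∧ ∀ j ∉ I, x j = x' j` and the conditions
`Sq (x i) (τ i)`, `Sq (x' i) (τ i)`, `Sq (x i, x j) δ(τ i, τ j)`, `Sq (x' i, x' j) δ(τ i, τ j)` for `i ∈ I`, `j ∉ I`, and `Sq (x ∘ ι) (x' ∘ ι)`.  No `(x, x')` satisfies all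
of this: `nx_of_sq`: `D (x i) (x j)`, `D (x' i) (x j)`, `x' ∘ ι = g' (x ∘ ι)`; `ort` with `g = id` on the `x j`: `h`, `x' = h x`, against `At.inv`.  So there is
`F_τ`, `FE A F_τ`, for the last condition (the other conditions hold for all tuples in the statement with `Tp` given by `τ`: `nx_sq`, `fe` part).
`F` = a common refinement of the `F_τ`, `Φ` = the classes `⟨k, fun v => F c v⟩` for finitely many representatives `c` (`fe_def`; invariant: `nx_sq`)
and the orbits `⟨1, fun v => v 0 is conjugate to s⟩`, `s ∈ S` (so `x` and `x'` have the same `τ`).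
If `x ∘ ι`, `x' ∘ ι` satisfy the same relations of `Φ` then `R x → R x'`, and by symmetry `R x' → R x`. -/
def St_SPL : Prop :=
  ∀ (L : FirstOrder.Language.{0, 0}) (U : Type) [L.Structure U], Mon L U → ∀ (A : Set U) (D : U → U → Prop),
    Orth L A D → ∀ (S : Set U) (n : ℕ) (R : (Fin n → U) → Prop) (I : Set (Fin n)), S.Finite →
    At (Nx L A) R →
    ∃ Φ : Set ((n : ℕ) × ((Fin n → U) → Prop)), Tst (Nx L A) Φ S ∧ ∀ x x' : Fin n → U,
      (∀ i, Tp (Nx L A) S (x i) ∧ Tp (Nx L A) S (x' i)) →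
      (∀ i ∈ I, ∀ j ∉ I, D (x i) (x j) ∧ D (x' i) (x j)) → (∀ j ∉ I, x' j = x j) →
      (∀ a ∈ Φ, ∀ f : Fin a.1 → Fin n, (∀ i, f i ∈ I) →
        (a.2 (fun i => x (f i)) ↔ a.2 (fun i => x' (f i)))) → (R x ↔ R x')

/-- [GLB] glueing games on orthogonal blocks.
HYPS: SPL, GAM.
PROOF.  `Φ'` = the union of `Φ` and of the sets from SPL for all `R ∈ Φ` and all `I ⊆ Fin n` (finitely many).  Induction on `m`.
`Okp Φ p`: let `R ∈ Φ`, `f : Fin n → p`, `x = fst ∘ f`, `y = snd ∘ f`, `b i = β (x i) = β (y i)`.  For a set `T` of blocks let `z_T i = y i` if `b i ∈ T`, `= x i`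
otherwise.  By induction on the finite set `T ⊆ range b`: `R x ↔ R z_T`.  Step `T → insert j T` (`j ∉ T`): SPL for `I = {i | b i = j}`, `z_T`,
`z_(insert j T)` (they agree outside of `I`; `D` from the hypothesis on `β`); for `a ∈ Φ'` and `f' : Fin a.1 → I`: `z_T ∘ f' = x ∘ f'`,
`z_(insert j T) ∘ f' = y ∘ f'`: `Okp Φ'` for the block `j` (all `Tg` imply `Okp`).  At the end `z_T = y`.
Moves: `x ∈ X` typed, `j = β x`: the game for the block `j` gives `y ∈ Y`, `β y = j`, `Cg x y`, and `Tg m` for the new position of the block `j`; for the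
other blocks GAM (1) (`m + 1 → m`); the new position `insert (x, y) p` has these parts (`y` is typed: `Grp.mul`, `nx_comp`). -/
def St_GLB : Prop :=
  ∀ (L : FirstOrder.Language.{0, 0}) (U : Type) [L.Structure U], Mon L U → ∀ (A : Set U) (D : U → U → Prop),
    Orth L A D → ∀ (Φ : Set ((n : ℕ) × ((Fin n → U) → Prop))) (S : Set U), Tst (Nx L A) Φ S →
    ∃ Φ' : Set ((n : ℕ) × ((Fin n → U) → Prop)), Tst (Nx L A) Φ' S ∧
      ∀ (J : Type) (β : U → J) (X Y : Set U), (∀ u ∈ X ∪ Y, ∀ v ∈ X ∪ Y, β u ≠ β v → D u v) →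
      ∀ (m : ℕ) (p : Set (U × U)), (∀ c ∈ p, c.1 ∈ X ∧ c.2 ∈ Y ∧ β c.1 = β c.2 ∧
        Tp (Nx L A) S c.1 ∧ Tp (Nx L A) S c.2) →
      (∀ j, Tg (Nx L A) Φ' S {u | u ∈ X ∧ β u = j} {u | u ∈ Y ∧ β u = j} m {c | c ∈ p ∧ β c.1 = j}) →
      Tg (Nx L A) Φ S X Y m p

/-- [BCH] change of base.
HYPS: GAM, UNI.
PROOF.  `B = A ∪ a`, `b` an enumeration of `a`.  Let `Φ'`, `S'` be a test for `Nx B`, `m'` a number, `s ⊆ X` finite.  Let `Φ''` be `Φ'` and the relations
`{v | v 0 is conjugate to σ under Nx B}`, `σ ∈ S'`; `S = S' ∪ s ∪ a`.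
(1) For every `R ∈ Φ''` there is `F_R`, `FE B F_R`, such that (i) if `R` is the orbit of `t` under `Nx B`: `R x` iff `F_R t x` and `(b, x)` is
conjugate to `(b, t)` under `G`: FNT over `B` (`TPC.z_FNT`; `g ∈ G` with `g b = b` is in `Fx B`; `nx_sq`); (ii) if `R` is `Dp C`: `R x → F_R x x' → R x'`: UNI over `B` for
`P = R x ∧ ¬ R x'` and the condition `Sq B x x'` (`nx_of_sq`).  `F_R x x'` iff `Q_R (b, x, x')` with `Dp A Q_R` (`dp_fam`), so `Q_R` is an atom for `G` (`dp_fx`,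
`Grp.fx`).  `Φ` = the atoms (GAM (9)) for the relations `Q_R` and `{v | (b, t) conjugate to v under G}`, `R ∈ Φ''`: with `S` a test for `G`.
(2) For every `R ∈ Φ''` there is a finite set `T_R` of `n`-tuples of `X`, typed by `S` (for `G`), such that every `n`-tuple of `Y` typed by `S` is
`F_R`-equivalent to a tuple in `T_R`: let `y^1, .., y^l` be a maximal set of pairwise inequivalent typed tuples of `Y` (`FE.fin`; we may take `l` maximal); GAM (6) for
the test `Φ`, `S` and the position `dg a` (`Tel`): tuples `x^1, .., x^l` of `X` with conjugate entries, pairwise inequivalent (`Q_R (b, y^i, y^j)` is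
preserved); `X ⊆ Y`, so `x^1, .., x^l` is also maximal.  `s⁺ = s ∪ a ∪` all the entries of the tuples in `T_R`, `R ∈ Φ''`: a finite subset of `X`.
(3) Claim: if `dg s⁺ ⊆ p`, the entries of the pairs of `p` are typed by `S` (for `G`), the left ones in `X` and the right ones in `Y`, and
`Tg G Φ S X Y m p` then `Tg (Nx B) Φ'' S' X Y m p`.  Induction on `m`.  `Okp Φ'' p`: `R ∈ Φ''`, `x = fst ∘ f`, `y = snd ∘ f`; take `c ∈ T_R` with `F_R c x`; as
`dg a`, `dg (range c) ⊆ p` the atom `Q_R` gives `F_R c y`, so `F_R x y`; so `R x ↔ R y` in case (ii); in case (i) use also the atom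
`{v | (b, t) conjugate to v under G}` for `(b, x)`, `(b, y)`.  Moves: `x ∈ X` conjugate to `σ ∈ S'` under `Nx B`, so under `G` (`Grp.nx`, `nx_mono`): `y ∈ Y`, `Cg G x y`,
`Tg G Φ S X Y m (insert (x, y) p)`; induction; `Okp Φ''` of the new position gives that `y` is conjugate to `σ` under `Nx B`, so to `x`.
(4) `Tel` for `s⁺`: `Tg G Φ S X Y m' (dg s⁺)`, so `Tg (Nx B) Φ'' S' X Y m' (dg s⁺)`, GAM (1). -/
def St_BCH : Prop :=
  ∀ (L : FirstOrder.Language.{0, 0}) (U : Type) [L.Structure U], Mon L U → FinN L U →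
    ∀ (A X Y a : Set U) (G : (U ≃[L] U) → Prop), Grp L A G → X ⊆ Y → Tel G X Y → a.Finite → a ⊆ X →
    Tel (Nx L (A ∪ a)) X Y

/-- [PAO] parameters outside of a union of pieces.
HYPS: GAM, UNI.
PROOF.  Let `Φ'`, `S'` be a test for `Nx (A ∪ W)`, `s ⊆ X` finite, `S = S' ∪ s`.  For every `R ∈ Φ'` there is a finite set `Φ_R` of atoms for `Nx A` such that
`R x ↔ R x'` for all tuples `x, x'` of `Q`, typed by `S` (for `Nx A`), which satisfy the same relations of `Φ_R`: (i) `R` the orbit of `t` under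
`Nx (A ∪ W)`: if some `t i ∉ Q` then `R` is false for all tuples of `Q` (`Bq.inv`); otherwise `R x` iff `x` is conjugate to `t` under `Nx A`
(`TPC.q_OFQ` (1)).  (ii) `R` is `Dp C`: for `x` in `Q` and `g` in `Nx A`: `R x → R (g x)` (OFQ (1): `h` in `Nx (A ∪ W)`, `h = g` on `x`).  For every `τ : Fin n → S ∩ Q`
UNI over `A` for `P = R x ∧ ¬ R x'` and the conditions `Sq (x i) (τ i)`, `Sq (x' i) (τ i)`, `Sq x x'` gives `F_τ` (`nx_of_sq`); `F` a common
refinement, `Φ_R` = its classes and the orbits `⟨1, fun v => v 0 is conjugate to s⟩`, `s ∈ S` (as in SPL).  `Φ = ⋃ Φ_R`.  By induction on `m`: `Tg (Nx A) Φ S X Y m p → Tg (Nx (A ∪ W)) Φ' S' X Y m p` for `p ⊆ X × Y` with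
entries typed by `S` (for `Nx A`).  Moves: `x ∈ X ⊆ Q`, `Cg (Nx A) x y`, so `Cg (Nx (A ∪ W)) x y` (OFQ (1)). -/
def St_PAO : Prop :=
  ∀ (L : FirstOrder.Language.{0, 0}) (U : Type) [L.Structure U], Mon L U → ∀ (A W Q X Y : Set U),
    A.Finite → W.Finite → Disjoint W Q → Bq L A Q → X ⊆ Y → Y ⊆ Q → Tel (Nx L A) X Y →
    Tel (Nx L (A ∪ W)) X Y

/-! ### Atomic models -/

section gen

variable {L : FirstOrder.Language.{0, 0}} {U : Type} [L.Structure U]

/-- an exhausting sequence of tests -/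
structure Exh (G : (U ≃[L] U) → Prop) (Φ : ℕ → Set ((n : ℕ) × ((Fin n → U) → Prop)))
    (S : ℕ → Set U) : Prop where
  tst : ∀ k, Tst G (Φ k) (S k)
  mono : ∀ k, Φ k ⊆ Φ (k + 1) ∧ S k ⊆ S (k + 1)
  exh : ∀ Φ' S', Tst G Φ' S' → ∃ k, Φ' ⊆ Φ k ∧ S' ⊆ S k

/-- the pairs of the first `n` terms -/
def pr (n : ℕ) (a b : ℕ → U) : Set (U × U) := range fun i : Fin n => (a i, b i)

/-- a generic sequence of approximations: at the stage `t` the first `n t` terms are approximated by the terms of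
`a t`, up to the level `k t` -/
structure Gen (G : (U ≃[L] U) → Prop) (Φ : ℕ → Set ((n : ℕ) × ((Fin n → U) → Prop)))
    (S : ℕ → Set U) (N : Set U) (c : ℕ → Set U) (n k : ℕ → ℕ) (a : ℕ → ℕ → U) : Prop where
  mem : ∀ t i, a t i ∈ N
  mon : ∀ t, n t ≤ n (t + 1) ∧ k t ≤ k (t + 1)
  unb : ∀ m, ∃ t, m ≤ n t ∧ m ≤ k t
  lev : ∀ t, Tg G (Φ (k t)) (S (k t)) N N (k t) (pr (n t) (a t) (a (t + 1))) ∧
    ∀ i < n t, Cg G (a t i) (a (t + 1) i)
  orb : ∀ m, ∃ t, m ≤ n t ∧
    (⟨m, fun v => Cgt G (fun i : Fin m => a t i) v⟩ : (n : ℕ) × ((Fin n → U) → Prop)) ∈ Φ (k t)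
  hen : ∀ (m r l : ℕ) (b : Fin m → U) (z : U), (∀ i, b i ∈ N) → z ∈ N → Tp G (S r) z →
    ∃ t, m ≤ n t ∧ r ≤ k t ∧ l + 1 ≤ k t ∧
      (Tg G (Φ r) (S r) N N (l + 1) (range fun i : Fin m => (a t i, b i)) →
        ∃ j < n t, Cg G (a t j) z ∧
          Tg G (Φ r) (S r) N N l (insert (a t j, z) (range fun i : Fin m => (a t i, b i))))
  omt : ∀ (r m : ℕ) (d : Fin m → U) (f : Fin m → ℕ), (∀ i, d i ∈ c r) →
    ∃ t, (∀ i, f i < n t) ∧
      ((∃ a₀ : Fin m → U, (∀ i, a₀ i ∈ N) ∧ Isl G N a₀ ∧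
        Teq G N (c r) (range fun i => (a₀ i, d i))) ∨
      ¬ Tg G (Φ (k t)) (S (k t)) N (c r) (k t) (range fun i => (a t (f i), d i)))

end gen

/-- [CNA] countability of the tests.
HYPS: none.
PROOF.  The set of all atoms `⟨n, R⟩`, `At G R`, is countable: the orbits are indexed by the tuples `t : Fin n → U` (`U` is countable, `Mon.ctb`); the
definable relations by the formulas `L.Formula (Fin n ⊕ Fin m)` and the tuples `Fin m → U` (`dp_form`, `dp_fin`; `L` is countable, so the set of the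
formulas is countable).  Enumerate the atoms and the elements of `U` (with repetitions; there are atoms: `⟨0, True⟩`); `Φ k`, `S k` = the first `k` of them. -/
def St_CNA : Prop :=
  ∀ (L : FirstOrder.Language.{0, 0}) (U : Type) [L.Structure U], Countable L.Symbols → Mon L U →
    ∀ G : (U ≃[L] U) → Prop, ∃ Φ S, Exh G Φ S

/-- [ATG] generic sequences.
HYPS: GAM.
PROOF.  Conditions are triples `q = (n, a, k)`, `a : ℕ → U` with values in `N`; `q' ≤ q` if `n ≤ n'`, `k ≤ k'`, and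
`Tg (Φ k) (S k) N N k (pr n a a')`, `Cg (a i) (a' i)` for `i < n` (a transitive relation: GAM (1), (3); reflexive: GAM (8)).  We need a sequence
`q_0 ≥ q_1 ≥ ..` which meets countably many dense sets of conditions (a standard recursion; there are countably many tuples of `N` and of the `c r`).
`unb`: increase `n`, `k`.  `orb` for `m`: let `n ≥ m`; the orbit of `(a i)_(i < m)` is an atom, so in some `Φ k'` (`Exh.exh`): increase `k`.
`hen` for `(m, r, l, b, z)`: let `n ≥ m`, `k ≥ r, l + 1`; if the hypothesis holds for `(n, a, k)` then the typed move `z` in the right copy has an answer `z' ∈ N`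
in the left copy: `Cg z' z`, `Tg l (insert (z', z) ..)`; append `z'` to `a` (at the place `n`; `n' = n + 1`).
`omt` for `(r, m, d, f)`: let `n > f i` for all `i`.  Suppose that no condition `q' ≤ (n, a, k)` satisfies `¬ Tg (Φ k') (S k') N (c r) k' (a' ∘ f, d)`.  Then
(*) for all `a' : ℕ → N` with `Tg (Φ k) (S k) N N k (pr n a a')`, `Cg (a i) (a' i)` (`i < n`): `Teq N (c r) (a' ∘ f, d)` (the conditions `(n, a', k')`, `k' ≥ k`;
`Exh.exh`, GAM (1)).  In particular for `a' = a`.  Let `a₀ = a ∘ f`.  `Isl N a₀`: let `k⁺ ≥ k + n` be such that `Φ k⁺` contains the atom `v 0 = v 1` (definable: `dp_eq`) and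
`S k⁺` contains `a 0, .., a (n - 1)`.  The test `Φ k⁺, S k⁺, k⁺`: let `e` be a tuple of `N` with `Tg (Φ k⁺) (S k⁺) N N k⁺ (a₀, e)`.  GAM (7) for the moves
`a 0, .., a (n - 1)`: `a'`, `Tg (Φ k⁺) (S k⁺) N N k ((a₀, e) ∪ (a, a'))`, `Cg (a i) (a' i)`; by the atom `v 0 = v 1` (pairs `(a (f i), e i)`, `(a (f i), a' (f i))`):
`e i = a' (f i)`.  (*): `Teq N (c r) (e, d)`, and `Teq N (c r) (a₀, d)`, so `Teq N N (a₀, e)` (GAM (2), (3)).  So the first alternative of `omt` holds. -/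
def St_ATG : Prop :=
  ∀ (L : FirstOrder.Language.{0, 0}) (U : Type) [L.Structure U], Mon L U →
    ∀ (A : Set U) (G : (U ≃[L] U) → Prop), Grp L A G → ∀ Φ S, Exh G Φ S →
    ∀ (N : Set U) (c : ℕ → Set U), N.Nonempty → ∃ n k a, Gen G Φ S N c n k a

/-- [ATL] the limit of a generic sequence.
HYPS: GAM.
PROOF.  Write `E_t(m)`: for `t ≤ t'`, `m ≤ n t`: `Tg (Φ (k t)) (S (k t)) N N (k t) (pr m (a t) (a t'))` and `Cg (a t i) (a t' i)` (GAM (1), (3); induction on `t'`).
(0) `orb`: for every `m` there is `t_m` such that `(a t i)_(i < m)` is conjugate under `G` to `(a t_m i)_(i < m)` for all `t ≥ t_m`.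
(1) There is `b : ℕ → U` such that for every `m` and `t ≥ t_m` the tuple `(b i)_(i < m)` is conjugate to `(a t i)_(i < m)`: `α m = a t'_m` with
`t'_m ≥ t_m, t_(m+1), t'_(m-1)`; `g_m ∈ G` maps `α (m+1) i` to `α m i`, `i < m`; `h_0 = id`, `h_(m+1) = h_m ∘ g_m`, `b i = h_(i+1) (α (i+1) i)`; then
`h_m (α m i) = b i` for all `i < m`.  `M = range b`.
(2) Witnesses: let `z ∈ N`, `m`, `r`, `l` be given, `z` typed by `S r`, `t` with `m ≤ n t`, `r, l + 1 ≤ k t`.  `hen` for `(m, r, l, (a t i)_(i<m), z)`: `t1`, `j`;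
the hypothesis `Tg (Φ r) (S r) N N (l + 1) (a t1, a t)` holds (`E`, GAM (1), (2); `t1 ≤ t` or `t ≤ t1`).  So `Cg (a t1 j) z` and
`Tg (Φ r) (S r) N N l (insert (a t1 j, z) (pr m (a t1) (a t)))`; by `E` the same for all `t2 ≥ t1` (with `j < n t1`), in place of `t1`.
(3) `Md A M`.  `isEl_of_orb`: `B ⊆ M` finite, `B ⊆ {b i | i < m}`, `x : U`, `O = Orb B x` definable over `B`.  Let `t ≥ t_m`, `g ∈ G` with `g (a t i) = b i`, `i < m`.  `g⁻¹ '' O` is
definable over `g⁻¹ '' B ⊆ N`, nonempty: `z ∈ N` with `g z ∈ O` (`IsEl N`).  (2) with `l = 0` and `r` such that `z ∈ S r` and the orbit of the tuple `((a t i)_(i<m), z)` is in `Φ r`: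
for large `t2` the tuple `((a t2 i)_(i<m), a t2 j)` is conjugate to `((a t i)_(i<m), z)`, and it is conjugate to `((b i)_(i<m), b j)` (`t2 ≥ t_(max m (j+1))`).  So
`g' (a t i) = b i`, `g' z = b j` with `g' ∈ G`; `g' ∘ g⁻¹` fixes `B`: `b j ∈ O`.  `A ⊆ M`: for `α ∈ A ⊆ N` (2) with `m = 0`, `z = α`: `a t2 j` and `b j` are
conjugate to `α` under `G`, `Grp.fx`: `b j = α`.
(4) Claim: for all `l, m, r` there is `T` such that `Tg (Φ r) (S r) M N l (pr m b (a t))` for all `t ≥ T`.  Induction on `l`.  `l = 0`: `Okp` (1) (invariance of the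
atoms).  `l + 1`: let `t` be so large that `m ≤ n t`, `r, l + 1 ≤ k t`, `t ≥ t_m`.  `Okp`: as before.  A move `b j ∈ M`, typed by `S r`: `m' = max m (j + 1)`; `t'` large:
`Tg M N l (pr m' b (a t'))`; `Tg N N (l + 1) (pr m (a t') (a t))` (`E`), `a t' j` is conjugate to `b j`: the move `a t' j` is answered by `z ∈ N`; compose (GAM (3)):
`Tg M N l (insert (b j, z) (pr m b (a t)))`.  A move `z ∈ N` typed by `S r`: (2) gives `j` and, for large `t2`, `Tg N N l (insert (a t2 j, z) (pr m (a t2) (a t)))`; compose with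
`Tg M N l (pr m' b (a t2))`.  The statement: `l = r = k`. -/
def St_ATL : Prop :=
  ∀ (L : FirstOrder.Language.{0, 0}) (U : Type) [L.Structure U], Mon L U →
    ∀ (A : Set U) (G : (U ≃[L] U) → Prop), Grp L A G → ∀ Φ S, Exh G Φ S →
    ∀ (N : Set U) (c : ℕ → Set U) (n k : ℕ → ℕ) (a : ℕ → ℕ → U), Md L A N → Gen G Φ S N c n k a →
    ∃ b : ℕ → U, Md L A (range b) ∧ ∀ m l : ℕ, ∃ T, ∀ t, T ≤ t →
      Tg G (Φ l) (S l) (range b) N l (pr m b (a t))

/-- [ATE] atomic elementary parts.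
HYPS: GAM, LBJ, CNA, ATG, ATL.
PROOF.  `Φ, S` from CNA, `c` from `Cpt A univ`, `n, k, a` from ATG (`N` is nonempty: `IsEl`), `b` from ATL, `M = range b`.
(1) For every `f : Fin m → ℕ` there is an isolated tuple `a₀` of `N` with `Teq M N (b ∘ f, a₀)`: `M` is similar to some `c r` (`Cpt`), so there is `e` with
`Lbj G M (c r) e` (LBJ (5), `Grp.nx`); `d = e ∘ b ∘ f`.  `omt` for `(r, m, d, f)`: `t`.  The second alternative is impossible: with `κ = k t`: for large `t'`: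
`Tg (Φ κ) (S κ) M N κ (pr (n t) b (a t'))` and (iterating `lev`; GAM (1), (3)) `Tg (Φ κ) (S κ) N N κ (pr (n t) (a t) (a t'))`, so `Tg (Φ κ) (S κ) M N κ (b ∘ f, a t ∘ f)`; with GAM (4) for `e`:
`Tg (Φ κ) (S κ) N (c r) κ (a t ∘ f, d)`.  So `a₀` with `Teq N (c r) (a₀, d)`; with GAM (4) for `e`: `Teq M N (b ∘ f, a₀)`.
(2) There is `e : ℕ → U` with values in `N` such that `Teq M N (pr m b e)` for all `m`: recursion; `m = 0`: from (1) for the empty `f`.  Step: let `a₀` be an isolated tuple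
of `N` with `Teq M N ((b i)_(i ≤ m), a₀)`, isolated by `Φ', S', l`.  `Teq M N (pr m b e)` for the test `Φ', S' ∪ {b m}` and `l + 1` rounds: the move `b m` is answered by
`z ∈ N`: `Tg Φ' S' M N l ((b i)_(i ≤ m), (e 0, .., e (m-1), z))`, so `Tg Φ' S' N N l (a₀, (e, z))`, so `Teq N N (a₀, (e, z))`, `Teq M N ((b, b m), (e, z))`.
(3) `M1 = range e ⊆ N`.  The pairs `(b i, e i)` are the graph of a bijection of `M` and `M1` (the atom `v 0 = v 1`), locally in `G` (the orbit of `(b i)_(i<m)` is an atom).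
So `SmN`-like arguments (`TPC.q_SMQ` (8): `Sm A M M1` as `G ⊆ Fx A`) give `Md A M1`.  `Tel M1 N`: for finite `s ⊆ {e i | i < m}` compose the inverse of this bijection (GAM (4))
and `Teq M N (pr m b e)`.  Tuples `e ∘ f` of `M1`: `Teq M N (b ∘ f, e ∘ f)`, (1): `Teq N N (a₀, e ∘ f)`, `a₀` isolated, so `e ∘ f` is isolated (GAM (2), (3)). -/
def St_ATE : Prop :=
  ∀ (L : FirstOrder.Language.{0, 0}) (U : Type) [L.Structure U], Countable L.Symbols → Mon L U →
    ∀ (A : Set U) (G : (U ≃[L] U) → Prop), Grp L A G → Cpt L A (univ : Set U) →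
    ∀ N : Set U, Md L A N → ∃ M1 ⊆ N, Md L A M1 ∧ Tel G M1 N ∧
      ∀ (n : ℕ) (a : Fin n → U), (∀ i, a i ∈ M1) → Isl G N a

/-- [ATO] equivalent models have similar elementary parts.
HYPS: GAM, LBJ, ATE.
PROOF.  `M1`, `M1'` from ATE for `N`, `N'`.  Back and forth (`MNO.thm_BAG`) between `M1` and `M1'` for the finite sets `p ⊆ M1 × M1'` of pairs with `Teq N N' p`.
Forth: `p = {(x_i, y_i)}`, `c ∈ M1`; the tuple `(x, c)` is isolated in `N` by `Φ, S, l`.
(a) There is `d ∈ M1'` with `Tg Φ S N N' l (insert (c, d) p)`: `Teq N N' p` for `Φ, S ∪ {c}`, `l + 1`: `d' ∈ N'`, `Cg c d'`, `Tg l (insert (c, d') p)`; `Tel M1' N'` at the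
position `dg {y_i}`, `l + 1`: the move `d' ∈ N'` is answered by `d ∈ M1'`: `Tg M1' N' l (insert (d, d') (dg {y_i}))`, and `Tel M1' N'` at `dg ({y_i} ∪ {d})`: compose
(GAM (2), (3)) `N → N' → M1' → N'`: `(x_i, y_i), (y_i, y_i), (y_i, y_i)` and `(c, d'), (d', d), (d, d)`.
(b) `Teq N N' (insert (c, d) p)`: let `Φ', S', l'` be a test.  `Teq N N' p` for `Φ ∪ Φ'`, `S ∪ S' ∪ {d}` and `max l l' + 1` rounds: the move `d ∈ N'` is answered by `c' ∈ N`:
`Tg (Φ ∪ Φ') .. N N' (max l l') (insert (c', d) p)`.  With (a): `Tg Φ S N N l ((x, c), (x, c'))`, so `Teq N N ((x, c), (x, c'))` (isolated); compose with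
`Tg Φ' S' N N' l' (insert (c', d) p)`: `Tg Φ' S' N N' l' (insert (c, d) p)` (GAM (1), (3)).
Back: the same with the roles exchanged (GAM (2)).  Start: `p = ∅`.  `p` is the graph of a bijection by the atom `v 0 = v 1`.  The result is a bijection `e` of `M1` and `M1'`
such that every finite part is in a finite `p` with `Teq N N' p`: so it is given by an element of `G` (the orbit of the tuple of the left entries is an atom): `Lbj G M1 M1' e`. -/
def St_ATO : Prop :=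
  ∀ (L : FirstOrder.Language.{0, 0}) (U : Type) [L.Structure U], Countable L.Symbols → Mon L U →
    ∀ (A : Set U) (G : (U ≃[L] U) → Prop), Grp L A G → Cpt L A (univ : Set U) →
    ∀ N N' : Set U, Md L A N → Md L A N' → Teq G N N' ∅ →
    ∃ M1 M1' : Set U, ∃ e : U → U, M1 ⊆ N ∧ M1' ⊆ N' ∧ Md L A M1 ∧ Md L A M1' ∧ Tel G M1 N ∧
      Tel G M1' N' ∧ Lbj G M1 M1' e

end Pool.Agent.TPQ
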