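import Pool.Agent.TPQ.StQ1

/-!
# TPQ: the `L₁(T)` clause of full T6 (helper47), second part: pairs of models, free unions of clusters, linear pieces, nice pieces

`PM L A P`: if `M0 ⊆ M` are models which contain `A` and `M0 ∩ P` is elementary in `M ∩ P` for the game over `Nx A` then these
parts are similar over `Nx A`.  `BigM`: the hereditary failure of this.  Conventions as in `StQ1.lean`.
-/

set_option autoImplicit false
set_option linter.unusedVariables false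

namespace Pool.Agent.TPQ

open FirstOrder.Language Set
open scoped FirstOrder
open Pool.Agent.WOM (tp Mon IsEl IsoM CtU Fx Orb Isd)
open Pool.Agent.PMC (Sm Md NPf)
open Pool.Agent.MNO (Dp FE Sq Nx SmN FE1 FinN)
open Pool.Agent.TPC (Bq Pq Lin Fre Kl Lab Iv Nice Inr Cpt Big Ist Clu Rgd Fcp)

section defs

variable (L : FirstOrder.Language.{0, 0}) {U : Type} [L.Structure U]

/-- pairs of models, one elementary in the other inside `P`, are similar inside `P` -/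
def PM (A P : Set U) : Prop :=
  ∀ M0 M : Set U, Md L A M0 → Md L A M → M0 ⊆ M → Tel (Nx L A) (M0 ∩ P) (M ∩ P) →
    SmN L A (M0 ∩ P) (M ∩ P)

/-- the piece of `z` over `A` does not have `PM` hereditarily -/
def BigM (A : Set U) (z : U) : Prop :=
  ∃ (B : Set U) (z' : U), B.Finite ∧ A ⊆ B ∧ z' ∈ Pq L A z ∧ ¬ PM L B (Pq L B z')

/-- the cluster of `u` contains a conjugate of `y` -/
def Rc (A E : Set U) (cl : U → U → Prop) (y u : U) : Prop :=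
  u ∈ E ∧ ∃ v ∈ E, cl u v ∧ Cg (Nx L A) y v

/-- `ρ u` moves `y` into the cluster of `u`, and depends only on this cluster -/
def Rsp (A E : Set U) (cl : U → U → Prop) (y : U) (ρ : U → (U ≃[L] U)) : Prop :=
  (∀ u, Rc L A E cl y u → Nx L A (ρ u) ∧ cl u (ρ u y)) ∧
    ∀ u ∈ E, ∀ u' ∈ E, cl u u' → ρ u = ρ u'

/-- `U` where every cluster which contains a conjugate of `y` is replaced by a copy of the cluster of `y` in `M` -/
def Rps (A E : Set U) (cl : U → U → Prop) (M : Set U) (y : U) (ρ : U → (U ≃[L] U)) : Set U :=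
  {u | Rc L A E cl y u → (ρ u).symm u ∈ M}

end defs

/-! ### Pairs of models -/

/-- [PMQ] calculus of `PM`.
HYPS: GAM, GLB, ORQ, PAO, TCJ.
PROOF.  (1) `SMQ` (2), (3).  For `Bq A Q` and a model `M` (`Md A M`) let `M' = {v | v ∈ Q → v ∈ M}`: `Md A M'` by UNQ (`TPC.q_UNQ`; `Fcp A`: `TPC.q_FCP`;
`m z = M` for `z ∈ Q`, `m z = univ` otherwise; `Q` is a union of pieces: `y ∈ Pq A z → (z ∈ Q ↔ y ∈ Q)`).  `M' ∩ Q = M ∩ Q`, `M' ∩ E = (M ∩ Q) ∪ (E \ Q)`, and `M'` contains all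
sets disjoint from `Q`.  `M0 ∩ Q ⊆ M ∩ Q` gives `M0' ⊆ M'` (if `M0 ⊆ M`).
(2) `M0'`, `M'` and `E`: `Tel (Nx A) (M0' ∩ E) (M' ∩ E)`: let `s ⊆ M0' ∩ E` be finite, `Φ, S` a test; GLB for `ORQ` (1), the test `Φ, S ∪ s`, `β u = (u ∈ Q)`, `p = dg s`: the block
`True` is `Tel (Nx A) (M0 ∩ Q) (M ∩ Q)` for `s ∩ Q`, the block `False` is GAM (8).  So `SmN A (M0' ∩ E) (M' ∩ E)`; SMQ (4) for `Q`.
(3) `M0'`, `M'` are `Md (A ∪ W)`; PAO: `Tel (Nx (A ∪ W)) (M0 ∩ Q) (M ∩ Q)`; `SmN (A ∪ W)` implies `SmN A` (SMQ (5)).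
(4) for `z ∈ Q`: `Pq A z ⊆ Q` (ALQ (6)) is invariant (ALQ (5)): GAM (5) gives `Tel (Nx A) (M0 ∩ Pq A z) (M ∩ Pq A z)`; so `SmN`; SMQ (6).
(5) `M0, M` for `h '' A`: `h⁻¹ '' M0`, `h⁻¹ '' M` are `Md A`; TCJ for `h⁻¹`; conjugate the bijection (`nx_conj`). -/
def St_PMQ : Prop :=
  ∀ (L : FirstOrder.Language.{0, 0}) (U : Type) [L.Structure U], Mon L U → NPf L U → ∀ A : Set U, A.Finite →
    (∀ z, Rgd L A z → PM L A (Pq L A z)) ∧
    (∀ Q E : Set U, Bq L A Q → Q ⊆ E → PM L A E → PM L A Q) ∧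
    (∀ Q W : Set U, W.Finite → Disjoint W Q → Bq L A Q → PM L (A ∪ W) Q → PM L A Q) ∧
    (∀ Q M0 M : Set U, Bq L A Q → Md L A M0 → Md L A M → M0 ⊆ M →
      Tel (Nx L A) (M0 ∩ Q) (M ∩ Q) → (∀ z ∈ Q, PM L A (Pq L A z)) → SmN L A (M0 ∩ Q) (M ∩ Q)) ∧
    ∀ (h : U ≃[L] U) (P : Set U), PM L A P → PM L (h '' A) (h '' P)

/-- [BMC] calculus of `BigM`.
HYPS: GAM, BCH, PAO, PMQ.
PROOF.  (1) `Pq A z' = Pq A z` (ALQ (8)).  (2) `Pq A' z' ⊆ Pq A z` (ALQ (10), (8)).  (3) `B`, `z'` from `BigM A z`: `Pq B z' ⊆ Pq A z` misses `W`, `Pq (B ∪ W) z' = Pq B z'` (NNQ), PMQ (3);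
`z' ∈ Pq (A ∪ W) z = Pq A z`.  (4) IMQ (2), PMQ (5) (for `h` and `h⁻¹`).
(5) `B`, `z0`: `z0 ∈ Pq A z`, not `PM B R`, `R = Pq B z0 ⊆ Pq A z`: `M0 ⊆ M`, `Tel (Nx B) (M0 ∩ R) (M ∩ R)`, not `SmN B`.  Suppose that no `z' ∈ Pq A z` satisfies
`BigM (A ∪ range u) z'`.  IST (3): `k` in `Nx A`, `k ∘ u` isolated over `B`; IST (2) over `B`: `g` in `Nx B` with all `g (k (u i)) ∈ M0`.  `h = g ∘ k` in `Nx A`, `u'' = h ∘ u`,
`C = B ∪ range u''`: `Md C M0`, `Md C M`.  Let `a = range u'' ∩ R`, `W = range u'' \ R`: BCH: `Tel (Nx (B ∪ a)) (M0 ∩ R) (M ∩ R)`; PAO over `B ∪ a` (`Bq (B ∪ a) R`: OFQ (3)):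
`Tel (Nx C) (M0 ∩ R) (M ∩ R)`.  For `z' ∈ R`: `PM C (Pq C z')`, otherwise `BigM (A ∪ range u'') z'`, so (4) for `h⁻¹`: `BigM (A ∪ range u) (h⁻¹ z')`, `h⁻¹ z' ∈ Pq A z`:
contradiction.  PMQ (4) over `C` for `Q = R` (`Bq C R`): `SmN C (M0 ∩ R) (M ∩ R)`, SMQ (5): `SmN B`: contradiction. -/
def St_BMC : Prop :=
  ∀ (L : FirstOrder.Language.{0, 0}) (U : Type) [L.Structure U], Mon L U → NPf L U → FinN L U →
    ∀ (A : Set U) (z : U), A.Finite →
    (∀ z' ∈ Pq L A z, BigM L A z → BigM L A z') ∧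
    (∀ A' : Set U, A'.Finite → A ⊆ A' → ∀ z' ∈ Pq L A z, BigM L A' z' → BigM L A z) ∧
    (∀ W : Set U, W.Finite → Disjoint W (Pq L A z) → BigM L A z → BigM L (A ∪ W) z) ∧
    (∀ h : U ≃[L] U, BigM L A z → BigM L (h '' A) (h z)) ∧
    ∀ (n : ℕ) (u : Fin n → U), BigM L A z → Ist L A u → ∃ z' ∈ Pq L A z, BigM L (A ∪ range u) z'

/-! ### Free unions of clusters -/

/-- [FR1] the clusters of the smaller model.
HYPS: GAM, BCH, PMQ.
PROOF.  `B = insert b A`, `K = {v | v ∈ E ∧ cl b v}`, `Clu A K b`, so `Bq B K` (`TPC.z_KBQ`).  BCH (`a = {b}`): `Tel (Nx B) (M0 ∩ E) (M ∩ E)`, GAM (5) for `K` (`K ⊆ E`, invariant):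
`Tel (Nx B) (M0 ∩ K) (M ∩ K)`; PMQ (4) over `B`: `SmN B (M0 ∩ K) (M ∩ K)`; `M0 ∩ K = Kl M0 b`; SMQ (5). -/
def St_FR1 : Prop :=
  ∀ (L : FirstOrder.Language.{0, 0}) (U : Type) [L.Structure U], Mon L U → NPf L U → FinN L U →
    ∀ (A E : Set U) (cl : U → U → Prop), Fre L A E cl →
    (∀ b ∈ E, ∀ z ∈ E, cl b z → PM L (insert b A) (Pq L (insert b A) z)) →
    ∀ M0 M : Set U, Md L A M0 → Md L A M → M0 ⊆ M → Tel (Nx L A) (M0 ∩ E) (M ∩ E) →
    ∀ b ∈ M0, b ∈ E → SmN L A (Kl E cl M0 b) (Kl E cl M b)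

/-- [FR2] a new cluster whose label has finite multiplicity is approximated by clusters with other labels.
HYPS: GAM.
PROOF.  For `σ, σ' ∈ E` all pairs `(u, w)` with `u` conjugate to `σ`, `w` conjugate to `σ'` (under `Nx A`), `¬ cl u w`, are conjugate (`Fre.ort` for one-element sets); if there
is such a pair let `Λ_(σ σ')` be its orbit, an atom: `Λ (u, w)` iff `u`, `w` are conjugate to `σ`, `σ'` and `¬ cl u w`.
Let `s ⊆ M0 ∩ E` be a finite set such that `Lab M0 (Kl M y)` is the set of the `Kl M0 x`, `x ∈ s`.  `Φ⁺` = `Φ` and all `Λ_(σ σ')`, `σ, σ' ∈ (S ∩ E) ∪ {y} ∪ s`, `S⁺ = S ∪ {y}`.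
`Tel` at `dg s`, `m + 1` rounds: the move `y ∈ M ∩ E` is answered by `y' ∈ M0 ∩ E`, `Cg y' y`, `Tg Φ⁺ S⁺ (M0 ∩ E) (M ∩ E) m p`, `p = insert (y', y) (dg s)`.  For `x ∈ s`: `¬ cl x y`, so `Λ_(x y) (x, y)`, so
`Λ_(x y) (x, y')`, `¬ cl x y'`.  So `Kl M0 y'` is none of the `Kl M0 x` (`Fre.rfl`, `Fre.sym`), and it is not similar to `Kl M y`.
Induction on `m`: if `(y', y) ∈ p` and `Tg Φ⁺ S⁺ (M0 ∩ E) (M ∩ E) m p` then `Tg Φ S (Kl M0 y') (Kl M y) m p`: a move `x ∈ Kl M0 y'`, conjugate to `σ ∈ S`, is answered by `z ∈ M ∩ E`; if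
`¬ cl y z` then `Λ_(y σ) (y, z)`, so `Λ_(y σ) (y', x)`, `¬ cl y' x`: contradiction; in the same way for moves `z ∈ Kl M y`.  GAM (1): `{(y', y)} ⊆ p`. -/
def St_FR2 : Prop :=
  ∀ (L : FirstOrder.Language.{0, 0}) (U : Type) [L.Structure U], Mon L U →
    ∀ (A E : Set U) (cl : U → U → Prop), Fre L A E cl →
    ∀ M0 M : Set U, Md L A M0 → Md L A M → M0 ⊆ M → Tel (Nx L A) (M0 ∩ E) (M ∩ E) →
    ∀ y ∈ M, y ∈ E → (∀ b ∈ M0, b ∈ E → ¬ cl b y) → (Lab L A E cl M0 (Kl E cl M y)).Finite →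
    ∀ Φ S m, Tst (Nx L A) Φ S → ∃ y' ∈ M0, y' ∈ E ∧ Cg (Nx L A) y' y ∧
      ¬ SmN L A (Kl E cl M y) (Kl E cl M0 y') ∧
      Tg (Nx L A) Φ S (Kl E cl M0 y') (Kl E cl M y) m {(y', y)}

/-- [REP] replacing all clusters which contain a conjugate of `y` by copies of one cluster.
HYPS: none.
PROOF.  (1) for a set `K` choose (if possible) `g` in `Nx A` with `g y ∈ K`; `ρ u` = this `g` for `K = {v | v ∈ E ∧ cl u v}`.
(2) `N = Rps M y ρ`.  `A ⊆ N` (`A ∩ E = ∅`, FOB (1)).  `isEl_of_orb`: `A ⊆ B ⊆ N` finite, `x : U`, `O = Orb B x` definable over `B`; we need a point of `O ∩ N`.  We may assume `Rc y x`, so `x ∈ E`.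
Case 1: `cl x b` for some `b ∈ B ∩ E`.  `g = ρ x = ρ b`, `S' = {b' ∈ B ∩ E | cl x b'} ⊆ g '' M`, `B' = A ∪ S'`; `g '' M` is `Md B'`.  `O` is contained in the cluster of `b` and invariant
under `Nx B'`: `h` in `Nx B'`, `u ∈ O`; FOB (2) for `S' ∪ {u}`, `(B ∩ E) \ S'` and `h` (`h b = b`, `fxc`), FOB (3): `k` fixes `B`, `k u = h u`.  `nx_meets` over `B'` for `g '' M`: `w ∈ O ∩ g '' M`,
`Rc y w`, `ρ w = g`: `w ∈ N`.
Case 2: `¬ cl x b` for all `b ∈ B ∩ E`.  All points of `O` are like that.  (a) If `u, u' = k u ∈ E`, `k` in `Nx A`, are both outside of the clusters of `B` then `u ∈ O ↔ u' ∈ O`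
(FOB (2) for `{u}`, `B ∩ E`; FOB (3)).  (b) `Θ = {u ∈ E | some k u, k in Nx A, is in O}` is `O ∪ s2 '' O`, where `s2` in `Nx A` maps `B ∩ E` to points outside of the clusters of `B ∩ E` (FOB (5)):
let `k u ∈ O`; if `u` is outside of the clusters of `B` then `u ∈ O` by (a); otherwise `s2⁻¹ u` is outside of the clusters of `B`, so `s2⁻¹ u ∈ O` by (a).  So `Θ` is definable over a finite
set, invariant under `Nx A`, `x ∈ Θ`.  The prime model over `A` (PMD) meets `Θ` (`nx_meets`): `x' ∈ Θ`, `Isd A x'`.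
(α) not `Rc y x'`: FOB (5): `k` in `Nx A`, `k x'` outside of the clusters of `B`: `k x' ∈ O` by (a), not `Rc y (k x')` (4): `k x' ∈ N`.
(β) `Rc y x'`: `cl x' (k0 y)`, `k0` in `Nx A`; replace `x'` by `k0⁻¹ x'`: `cl y x'`, `x' ∈ Θ`, `Isd A x'`.  `D' = {w | w conjugate to x' under Nx A}` is definable over a finite set (IST (1) and its connection with
`Isd`; `FinN`).  Let `y0` be conjugate to `x'`, `¬ cl y y0` (`Fre.inf`).  `(y, x')`, `(y, y0)` are not conjugate (`fxc`), so (`nx_of_sq`) there is `F`, `FE A F`, `¬ F (y, x') (y, y0)`.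
`D = {w ∈ D' | F (y, x') (y, w)}` is definable over a finite set, invariant under `Nx (insert y A)` (`nx_sq`), contains `x'`; `nx_meets` over `insert y A` for `M`: `w ∈ M ∩ D`.  `cl y w`: otherwise
`(y, w)` and `(y, y0)` are conjugate (`Fre.ort` for `{y}`, `{y0}`), so `F (y, w) (y, y0)`: contradiction.  Let `k1` in `Nx A` with `k1 y` outside of the clusters of `B` (FOB (5)), `g = ρ (k1 y)`: `w1 = g w` is in the
cluster of `g y`, so of `k1 y`; it is outside of the clusters of `B`, conjugate to `x'`, so in `Θ` and (a) in `O`; `ρ w1 = g`, `g⁻¹ w1 = w ∈ M`: `w1 ∈ N`.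
(3) `z ∈ E`, `cl u z`: `ρ z = ρ u`, and `cl y ((ρ u)⁻¹ z)`.  (4) clear (`fxE`, `fxc`, `nx_comp`, `Fre.tra`). -/
def St_REP : Prop :=
  ∀ (L : FirstOrder.Language.{0, 0}) (U : Type) [L.Structure U], Mon L U → FinN L U →
    ∀ (A E : Set U) (cl : U → U → Prop), Fre L A E cl → ∀ y ∈ E,
    (∃ ρ, Rsp L A E cl y ρ) ∧
    (∀ M ρ, Md L A M → y ∈ M → Rsp L A E cl y ρ → Md L A (Rps L A E cl M y ρ)) ∧
    (∀ M ρ u, Rsp L A E cl y ρ → Rc L A E cl y u →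
      Kl E cl (Rps L A E cl M y ρ) u = ρ u '' Kl E cl M y) ∧
    (∀ (g : U ≃[L] U) (u : U), Nx L A g → (Rc L A E cl y (g u) ↔ Rc L A E cl y u)) ∧
    (∀ u u', Rc L A E cl y u → u' ∈ E → cl u u' → Rc L A E cl y u') ∧
    ∀ y' u, Cg (Nx L A) y y' → (Rc L A E cl y u ↔ Rc L A E cl y' u)

/-- [RFM] finitely many labels meet an orbit.
HYPS: REP.
PROOF.  Otherwise there are `p n ∈ M ∩ E`, conjugate to `y`, with `¬ SmN A (Kl M (p i)) (Kl M (p j))` for `i ≠ j` (choose one after another).  REP (1), (2) for `p 0`: `ρ`, `N = Rps M (p 0) ρ`, `Md A N`.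
`Lab N (Kl M (p n)) = ∅` for `n ≥ 1`: if `e` is a bijection of `Kl M (p n)` and `Kl N z` as in `SmN` then `e (p n)` is conjugate to `p n`, so to `p 0`, in the cluster of `z`: `Rc (p 0) z`, REP (3):
`Kl N z = ρ z '' Kl M (p 0)`, so `SmN A (Kl M (p n)) (Kl M (p 0))`: contradiction.  FIF (`TPC.q_FIF`) for `M0 := N`, the sequence `M`, `p (n + 1)`: contradiction. -/
def St_RFM : Prop :=
  ∀ (L : FirstOrder.Language.{0, 0}) (U : Type) [L.Structure U], Mon L U → NPf L U → FinN L U →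
    ∀ (A E : Set U) (cl : U → U → Prop), Fre L A E cl → ∀ M : Set U, Md L A M → ∀ y ∈ E,
    ∃ F : Set U, F.Finite ∧ F ⊆ M ∧ F ⊆ E ∧ (∀ f ∈ F, Cg (Nx L A) y f) ∧
      ∀ y' ∈ M, y' ∈ E → Cg (Nx L A) y y' → ∃ f ∈ F, SmN L A (Kl E cl M y') (Kl E cl M f)

/-- [FR3] one cluster of `M0` with another label is equivalent to the new cluster.
HYPS: GAM, LBJ, FR2, RFM.
PROOF.  `F` from RFM for `M0`, `y`.  Otherwise for every `f ∈ F` with `¬ SmN A (Kl M y) (Kl M0 f)` there is a test `Φ_f, S_f`, `m_f` with not `Tg .. (Kl M0 f) (Kl M y) m_f ∅`.  FR2 for the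
union of these (finitely many) tests and the maximum of the `m_f`: `y'`, `SmN A (Kl M0 y') (Kl M0 f)` for some `f ∈ F`, so `¬ SmN A (Kl M y) (Kl M0 f)`, and (GAM (1), (3), (4), LBJ (5))
`Tg Φ_f S_f (Kl M0 f) (Kl M y) m_f ∅`: contradiction. -/
def St_FR3 : Prop :=
  ∀ (L : FirstOrder.Language.{0, 0}) (U : Type) [L.Structure U], Mon L U → NPf L U → FinN L U →
    ∀ (A E : Set U) (cl : U → U → Prop), Fre L A E cl →
    ∀ M0 M : Set U, Md L A M0 → Md L A M → M0 ⊆ M → Tel (Nx L A) (M0 ∩ E) (M ∩ E) →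
    ∀ y ∈ M, y ∈ E → (∀ b ∈ M0, b ∈ E → ¬ cl b y) → (Lab L A E cl M0 (Kl E cl M y)).Finite →
    ∃ y' ∈ M0, y' ∈ E ∧ Cg (Nx L A) y' y ∧ ¬ SmN L A (Kl E cl M y) (Kl E cl M0 y') ∧
      ∀ Φ S m, Tst (Nx L A) Φ S → Tg (Nx L A) Φ S (Kl E cl M0 y') (Kl E cl M y) m ∅

/-- [FR4] the replaced models are equivalent.
HYPS: GAM, LBJ, GLB, ORQ, REP.
PROOF.  `N' = Rps M' y' ρ'`, `N = Rps M y ρ`.  `Rc y u ↔ Rc y' u` (REP (6)).  GLB for `ORQ` (2), `X = N'`, `Y = N`, `p = ∅`, `β u = {v | v ∈ E ∧ cl u v}` if `Rc y u`, `β u = ∅` otherwise (`β : U → Set U`): if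
`β u ≠ β v` then `Rc y u` or `Rc y v`, and `u`, `v` are not in one cluster (REP (5)): `D u v`.  The block `∅` is the set of the `u` with not `Rc y u` (for `Rc y u`: `u ∈ β u`), for `N'` and for `N`:
GAM (8) for `s = ∅`.  The block of `K = β u`, `Rc y u`: `{v ∈ N | β v = K} = Kl N u = ρ u '' Kl M y` (REP (3)), and `Kl N' u = ρ' u '' Kl M' y'`: compose (GAM (2), (3), (4), LBJ (4)) the hypothesis with
`ρ u` and `ρ' u`.  All other blocks are empty (GAM (8)). -/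
def St_FR4 : Prop :=
  ∀ (L : FirstOrder.Language.{0, 0}) (U : Type) [L.Structure U], Mon L U → FinN L U →
    ∀ (A E : Set U) (cl : U → U → Prop), Fre L A E cl → ∀ (M' M : Set U) (y' y : U)
      (ρ' ρ : U → (U ≃[L] U)), y' ∈ E → y ∈ E → Cg (Nx L A) y' y →
    (∀ Φ S m, Tst (Nx L A) Φ S → Tg (Nx L A) Φ S (Kl E cl M' y') (Kl E cl M y) m ∅) →
    Rsp L A E cl y' ρ' → Rsp L A E cl y ρ →
    Teq (Nx L A) (Rps L A E cl M' y' ρ') (Rps L A E cl M y ρ) ∅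

/-- [FR5] equivalent clusters are similar.
HYPS: GAM, LBJ, GRP, FR1, FR4, REP, ATO.
PROOF.  `ρ'`, `ρ` (REP (1)), `N' = Rps M' y' ρ'`, `N = Rps M y ρ` are `Md A` (REP (2)), FR4: `Teq (Nx A) N' N ∅`.  ATO for `G = Nx A`: `M1' ⊆ N'`, `M1 ⊆ N`, `Lbj (Nx A) M1' M1 e`.
`u0 = ρ y y ∈ N` (`Rc y y`, `cl y u0`, `ρ u0 = ρ y`) is conjugate to `y`; `Tel (Nx A) M1 N` (`s = ∅`, a test with `S = {y}`, one round): `y1 ∈ M1` conjugate to `u0`, so to `y`; `y1 ∈ E`, `Rc y y1`.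
FR1 for `M1 ⊆ N` (`Tel (Nx A) (M1 ∩ E) (N ∩ E)` by GAM (5)), `b = y1`: `SmN A (Kl M1 y1) (Kl N y1)`, `Kl N y1 = ρ y1 '' Kl M y` (REP (3)): `SmN A (Kl M1 y1) (Kl M y)`.  Let `y1' ∈ M1'`, `e y1' = y1`: conjugate to `y1`, so to
`y'`.  `e` maps `Kl M1' y1'` onto `Kl M1 y1` (`fxE`, `fxc`, `Lbj` for two points), so they are similar; and as before `SmN A (Kl M1' y1') (Kl M' y')`. -/
def St_FR5 : Prop :=
  ∀ (L : FirstOrder.Language.{0, 0}) (U : Type) [L.Structure U], Countable L.Symbols → Mon L U → NPf L U →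
    FinN L U → ∀ (A E : Set U) (cl : U → U → Prop), Fre L A E cl → Cpt L A (univ : Set U) →
    (∀ b ∈ E, ∀ z ∈ E, cl b z → PM L (insert b A) (Pq L (insert b A) z)) →
    ∀ (M' M : Set U) (y' y : U), Md L A M' → Md L A M → y' ∈ M' → y' ∈ E → y ∈ M → y ∈ E →
    Cg (Nx L A) y' y →
    (∀ Φ S m, Tst (Nx L A) Φ S → Tg (Nx L A) Φ S (Kl E cl M' y') (Kl E cl M y) m ∅) →
    SmN L A (Kl E cl M' y') (Kl E cl M y)

/-- [LBM] multiplicities of labels.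
HYPS: none.
PROOF.  As (3) of `TPC.St_FCT` (`TPC/FCT.lean`).  The clusters of `M0` are the sets `Kl M0 b`, those of `M` the sets `Kl M y`.  `Kl M0 b ↦ Kl M b` is an injective map which preserves the label (by hypothesis).
For every label (class of similar clusters) the clusters of `M0` and the clusters of `M` with this label are equinumerous: if there is a cluster of `M` with this label which
contains no point of `M0` both sets are infinite (by hypothesis) and countable; otherwise the map is surjective.  So there is a bijection of the clusters of `M0` and of `M` such that corresponding ones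
are similar; choose a bijection as in `SmN` for each; their union `M0 ∩ E ≃ M ∩ E`; for a finite set FOB (4). -/
def St_LBM : Prop :=
  ∀ (L : FirstOrder.Language.{0, 0}) (U : Type) [L.Structure U], Mon L U →
    ∀ (A E : Set U) (cl : U → U → Prop), Fre L A E cl → ∀ M0 M : Set U, M0 ⊆ M →
    (∀ b ∈ M0, b ∈ E → SmN L A (Kl E cl M0 b) (Kl E cl M b)) →
    (∀ y ∈ M, y ∈ E → (∀ b ∈ M0, b ∈ E → ¬ cl b y) →
      ¬ (Lab L A E cl M0 (Kl E cl M y)).Finite) →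
    SmN L A (M0 ∩ E) (M ∩ E)

/-- [FRE] free unions of clusters.
HYPS: FR1, FR3, FR5, LBM.
PROOF.  `M0 ⊆ M` as in `PM`.  LBM: the first hypothesis is FR1.  For the second let `y ∈ M ∩ E` be in no cluster of a point of `M0` and suppose that `Lab M0 (Kl M y)` is finite: FR3: `y'`, not
`SmN A (Kl M y) (Kl M0 y')`; FR5: `SmN A (Kl M0 y') (Kl M y)`: contradiction. -/
def St_FRE : Prop :=
  ∀ (L : FirstOrder.Language.{0, 0}) (U : Type) [L.Structure U], Countable L.Symbols → Mon L U → NPf L U →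
    FinN L U → ∀ (A E : Set U) (cl : U → U → Prop), Fre L A E cl → Cpt L A (univ : Set U) →
    (∀ b ∈ E, ∀ z ∈ E, cl b z → PM L (insert b A) (Pq L (insert b A) z)) → PM L A E

/-! ### Linear pieces -/

/-- [LDT] the part of a model in a linear piece is determined by the first and the last cluster.
HYPS: none.
PROOF.  This is the statement `key` in the proof of `TPC.thm_LCL` (`TPC/LCL.lean`; copy the private lemmas), with `H1` from `TPC.q_LNW` and `H2` from `TPC.q_LNI` (for `M0 = univ`, `TPC.q_RCH` (1)).  `LCL_D lt (M ∩ E) (M' ∩ E) T T'`: if `p`, `p'`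
are in the first clusters and `SmN A (Iv M p p) (Iv M' p' p')` take `z` from `H1` for `p`. -/
def St_LDT : Prop :=
  ∀ (L : FirstOrder.Language.{0, 0}) (U : Type) [L.Structure U], Mon L U → NPf L U →
    ∀ (A E : Set U) (lt : U → U → Prop), Lin L A E lt → ∀ M M' : Set U, Md L A M → Md L A M' →
    ((∃ p ∈ M, ∃ p' ∈ M', p ∈ E ∧ p' ∈ E ∧ (∀ q ∈ M, q ∈ E → ¬ lt q p) ∧
        (∀ q ∈ M', q ∈ E → ¬ lt q p') ∧ SmN L A (Iv E lt M p p) (Iv E lt M' p' p')) ∨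
      (∀ p ∈ M, p ∈ E → ∃ q ∈ M, q ∈ E ∧ lt q p) ∧ ∀ p ∈ M', p ∈ E → ∃ q ∈ M', q ∈ E ∧ lt q p) →
    ((∃ p ∈ M, ∃ p' ∈ M', p ∈ E ∧ p' ∈ E ∧ (∀ q ∈ M, q ∈ E → ¬ lt p q) ∧
        (∀ q ∈ M', q ∈ E → ¬ lt p' q) ∧ SmN L A (Iv E lt M p p) (Iv E lt M' p' p')) ∨
      (∀ p ∈ M, p ∈ E → ∃ q ∈ M, q ∈ E ∧ lt p q) ∧ ∀ p ∈ M', p ∈ E → ∃ q ∈ M', q ∈ E ∧ lt p q) →
    ((∃ p ∈ M, ∃ q ∈ M, p ∈ E ∧ q ∈ E ∧ lt p q) ↔ ∃ p ∈ M', ∃ q ∈ M', p ∈ E ∧ q ∈ E ∧ lt p q) →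
    SmN L A (M ∩ E) (M' ∩ E)

/-- [LPM] linear pieces.
HYPS: GAM, LDT.
PROOF.  `X = M0 ∩ E ⊆ Y = M ∩ E`.  (o) If `lt u w` for some `u` conjugate to `σ`, `w` conjugate to `σ'` (`σ, σ' ∈ E`), then all such pairs `(u, w)` are conjugate under `Nx A` (`Lin.ort`); let `Λ_(σ σ')` be this orbit, an
atom.  (l) For `p ∈ M ∩ E`, `Md A M`: `SmN A (Iv M p p) (Iv univ p p)`: LNW for `M0 = univ`: `z ∈ E` and `e : Iv M p p ≃ Iv univ z z` as in `SmN`; `e p = g p` with `g` in `Nx A` is in the cluster of `z`, so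
`Iv univ z z = Iv univ (g p) (g p) = g '' Iv univ p p`.  So clusters of models at conjugate points are similar.
(d) If `p, q ∈ M ∩ E`, `lt p q`, `x ∈ E` then there is `x' ∈ M` conjugate to `x`, `lt p x'`, `lt x' q` (LNI for `z = x`: `z'` and a bijection of `Iv M z' z'` and `Iv univ x x`; `x'` = the preimage of `x`; `neg`).
LDT for `M := M0`, `M' := M`.  Third hypothesis: (→) `M0 ⊆ M`.  (←) `lt p q`, `p, q ∈ M ∩ E`.  `X ≠ ∅`: `Tel` for `s = ∅`, a test with `S = {p}`, one round.  Let `x0 ∈ X`; (d) twice: `p', q' ∈ M` conjugate to `x0` with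
`lt p' q'`; `Tel` for `s = ∅`, the test `{Λ_(x0 x0)}`, `{x0}`: GAM (6) for the moves `p'`, `q'`: `x1, x2 ∈ X`, `lt x1 x2`.
First hypothesis: suppose some `p ∈ Y` satisfies `∀ q ∈ Y, ¬ lt q p`.  Test `{Λ_(p p)}` (if it exists), `{p}`, two rounds, `s = ∅`: `x0 ∈ X`, `Cg x0 p`, `Tg .. 1 {(x0, p)}`.  If `lt q x0` for some `q ∈ X` then (d) for `M0`: `w ∈ X`
conjugate to `p`, `lt w x0`: the move `w` is answered by `w' ∈ Y` with `lt w' p`: contradiction.  So `x0` is in the first cluster of `X`, and (l) `SmN A (Iv M0 x0 x0) (Iv M p p)`.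
Suppose there is no such `p`, but `p ∈ X` with `∀ q ∈ X, ¬ lt q p`: `q ∈ Y`, `lt q p`; (d) for `M`: `w ∈ Y` conjugate to `p`, `lt w p`; `Tel` for `s = {p}`, the test `{Λ_(p p)}`, `{p}`, one round: the move `w` is answered by `w' ∈ X`, `lt w' p`:
contradiction.  Second hypothesis: the same with the reversed order. -/
def St_LPM : Prop :=
  ∀ (L : FirstOrder.Language.{0, 0}) (U : Type) [L.Structure U], Mon L U → NPf L U →
    ∀ (A E : Set U) (lt : U → U → Prop), Lin L A E lt → PM L A E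

/-! ### Nice pieces -/

/-- [NIP] nice pieces.
HYPS: GAM, BCH, PMQ, LPM.
PROOF.  Induction on `n`, for all `A`, `x`.  `n = 0`: `P = Pq A x = {x}`: if `x ∈ M \ M0` then `M0 ∩ P = ∅` and the typed move `x` (`S = {x}`, `s = ∅`, one round) has no answer; so `M0 ∩ P = M ∩ P`, SMQ (1).
`Lin A P lt`: LPM.  `Fre A E cl`, `P ⊆ E`: hypothesis for `B = A`, `z = x`.
`n + 1`: if `Nice n A x`: induction.  Otherwise let `M0 ⊆ M` be as in `PM`.  If `M ∩ P = ∅`: `M0 ∩ P = ∅`, SMQ (1).  If `v ∈ M ∩ P` the typed move `v` (`S = {v}`, `s = ∅`, one round) gives `y ∈ M0 ∩ P`.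
`A' = insert y A`; BCH (`a = {y}`): `Tel (Nx A') (M0 ∩ P) (M ∩ P)`; `Bq A' P` (ALQ (5), OFQ (3)).  For `z ∈ P`: `PM A' (Pq A' z)`: if `Inr A y z`: `Rgd A' z` (`TPC.q_RIG`), PMQ (1); if `Nice n A' z`: induction
(`Pq A' z ⊆ P`, so the hypothesis is satisfied for `A'`, `z`).  PMQ (4) over `A'`: `SmN A' (M0 ∩ P) (M ∩ P)`, SMQ (5). -/
def St_NIP : Prop :=
  ∀ (L : FirstOrder.Language.{0, 0}) (U : Type) [L.Structure U], Mon L U → NPf L U → FinN L U →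
    ∀ (n : ℕ) (A : Set U) (x : U), A.Finite → Nice L n A x →
    (∀ (B : Set U) (z : U) (E : Set U) (cl : U → U → Prop), B.Finite → A ⊆ B → z ∈ Pq L A x →
      Fre L B E cl → Pq L B z ⊆ E → PM L B (Pq L B z)) →
    PM L A (Pq L A x)

end Pool.Agent.TPQ
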