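import Pool.Agent.TPQ.StQ2
import Pool.Agent.TPY.Asm3

/-!
# TPQ: the `L₁(T)` clause of full T6 (helper47), third part: the no-big-piece theorem in `U`, the two runs, the theorem in `U`, the fragment
`L₁(T)`, the theorem

`i : U → V` is an elementary embedding of the countable saturated model into a countably saturated one; `TPY.NBV L V` is the
no-big-piece theorem (`TPY.m_RNB`).  `NBU L U` is its version in `U`.  Conventions as in `StQ1.lean`.
-/

set_option autoImplicit false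
set_option linter.unusedVariables false

namespace Pool.Agent.TPQ

open FirstOrder.Language Set
open scoped FirstOrder
open Pool.Agent.WOM (tp Mon IsEl IsoM CtU Fx Orb Isd CtT PerfT ThS)
open Pool.Agent.PMC (Sm Md NPf)
open Pool.Agent.MNO (Dp FE Sq Nx SmN FE1 FinN)
open Pool.Agent.TPC (Bq Pq Lin Fre Kl Lab Iv Nice Inr Cpt Big Ist Clu Rgd Fcp)
open Pool.Agent.TPY (Cz Emb OutE NBV NipO)

section defs

variable (L : FirstOrder.Language.{0, 0}) {U : Type} [L.Structure U]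

/-- what is known about the ended pieces, in `U` -/
def OutU (A : Set U) (z : U) : Prop :=
  ∀ B : Set U, B.Finite → A ⊆ B → ∀ z' ∈ Pq L A z,
    (∃ n, Nice L n B z') ∨ Rgd L B z' ∨
    ∃ (E : Set U) (cl : U → U → Prop) (b : U), Fre L A E cl ∧
      (∀ y ∈ E, ∃ v ∈ Pq L A z, y ∈ Orb L A v) ∧ b ∈ B ∧ b ∈ E ∧ z' ∈ E ∧ cl b z'

/-- notions `big` in `U` for the finite sets which contain `A₀` -/
structure BigU (A₀ : Set U) (big : Set U → U → Prop) : Prop where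
  inv : ∀ (g : U ≃[L] U) (A : Set U) (z : U), Fx L A₀ g → A.Finite → A₀ ⊆ A → big A z →
    big (g '' A) (g z)
  pc : ∀ (A : Set U) (z z' : U), A.Finite → A₀ ⊆ A → z' ∈ Pq L A z → big A z → big A z'
  b1 : ∀ (A : Set U) (z : U), A.Finite → A₀ ⊆ A → OutU L A z → ¬ big A z
  b3 : ∀ (A : Set U) (z : U) (n : ℕ) (u : Fin n → U), A.Finite → A₀ ⊆ A →
    (∀ k, u k ∈ Pq L A z) → Ist L A u → big A z → ∃ z' ∈ Pq L A z, big (A ∪ range u) z'
  b4 : ∀ (A A' : Set U) (z z' : U), A'.Finite → A₀ ⊆ A → A ⊆ A' → z' ∈ Pq L A z → big A' z' →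
    big A z
  b5 : ∀ (A W : Set U) (z : U), A.Finite → A₀ ⊆ A → W.Finite → Disjoint W (Pq L A z) → big A z →
    big (A ∪ W) z

variable (U) in
/-- (NB) in `U`: there is no big piece -/
def NBU : Prop := ∀ (A₀ : Set U) (big : Set U → U → Prop), A₀.Finite → BigU L A₀ big →
  ∀ (A : Set U) (z : U), A.Finite → A₀ ⊆ A → ¬ big A z

end defs

/-! ### The no-big-piece theorem in `U` -/

/-- [OUB] ended pieces.
HYPS: none.
PROOF.  As `TPY/B1V.lean` and `TPY/RU2.lean`.  `B`, `z' ∈ Pq A z`: `j z' ∈ Pc (j '' A) (j z)` (`pq_eq`, `pc_emb`); `OutE.cls` for `j '' B`, `j z'`.  Nice: `nice_of`.  Singleton: `Pq B z' = {z'}` (`pq_pre`), so `Rgd B z'`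
(`M ∩ {z'}`: `z' ∈ M` for every model `M` which contains `B`: `{z'}` is invariant under `Nx B` and definable, `nx_meets`; SMQ (1)).  Inside a cluster of a linear piece: `TPC.z_LRG` (the private theorem `b1v_lin`): `Rgd B z'`.
Fourth case: `FreV L (j '' A) E cl`, `b = j b1`: `fre_of`: `Fre A (j⁻¹ E) (cl (j ·) (j ·))`.  Let `y ∈ j⁻¹ E`: `x ∈ Pc (j '' A) (j z)` with `Tq (j '' A) x (j y)`; `emb_ext`: `j2` which agrees with `j` on `A ∪ {z, y}` and `x = j2 v`: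
`v ∈ Pq A z` (`pc_emb`, `pq_eq` for `j2`), `Tq (j2 '' A) (j2 v) (j2 y)`, so `Tq A v y` (`tq_emb`), `y ∈ Orb A v` (`Mon.hom`, `dp_hom`). -/
def St_OUB : Prop :=
  ∀ (L : FirstOrder.Language.{0, 0}) (U V : Type) [L.Structure U] [L.Structure V] (i : U → V),
    Cz L V → Emb L i → Mon L U → NPf L U → FinN L U → ∀ (j : U → V) (A : Set U) (z : U), Emb L j →
    A.Finite → OutE L (j '' A) (j z) → OutU L A z

/-- [NBT] the no-big-piece theorem in `U`.
HYPS: OUB.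
PROOF.  `BigU A₀ big`.  `bigV A z := ∃ (j : U → V) (A' : Set U) (z' : U), Emb L j ∧ (∀ a ∈ A₀, j a = i a) ∧ A'.Finite ∧ A₀ ⊆ A' ∧ j '' A' = A ∧ j z' = z ∧ big A' z'`.
(0) If `Emb L j`, `j = i` on `A₀`, `A' ⊇ A₀` finite: `bigV (j '' A') (j z')` iff `big A' z'`: let `j1, A1, z1` be as in `bigV`; `TPY.w_EMV` (6) for enumerations: `g` with `g '' A1 = A'`, `g z1 = z'`, `j1 a = j (g a)` for `a ∈ A1`; for `a ∈ A₀`:
`j (g a) = j1 a = i a = j a`, `g a = a` (`Emb.inj`): `BigU.inv`.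
`BigH L (i '' A₀) bigV`: `inv`: `j` with `bigV`'s data, `n`-tuple `a` with `range a = j '' A' ⊇ i '' A₀`; `w_EMV` (7) for the tuple `(a, z)` and `j`: `j'` with `j' u = a' k` if `j u = a k`; `a' k = a k` if `a k ∈ i '' A₀` (`Tq (i '' A₀)`, the relation
`v k = i a₀` is definable), so `j' = i` on `A₀`; `bigV (range a') z'`.  `pc`, `b3`, `b4`, `b5`: as in `TPY/BGV.lean`: choose `j` with all points which occur in the range (`emb_ext`; it agrees with the given one on `A' ∪ {z'}`), pull back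
(`pq_eq`, `pc_emb`, `pq_pre`, `j '' (j⁻¹' A) = A`; `w_ISV` (1) for `b3`), apply `BigU`, push forward.  `b1`: (OUB) and `BigU.b1`.
`NBV` for `i '' A₀`, `bigV`: for `A ⊇ A₀` finite: not `bigV (i '' A) (i z)`, so not `big A z` (0). -/
def St_NBT : Prop :=
  ∀ (L : FirstOrder.Language.{0, 0}) (U V : Type) [L.Structure U] [L.Structure V] (i : U → V),
    Cz L V → Emb L i → Mon L U → NPf L U → FinN L U → NBV L V → NBU L U

/-- [RUN] the two runs, for a general property `Pr` of pieces (`Pr B z`: a property of the piece `Pq B z` over `B`).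
HYPS: none.
PROOF.  `Bg A z := ∃ B z', B.Finite ∧ A ⊆ B ∧ z' ∈ Pq A z ∧ ¬ Pr B z'`.  It is clear that `z' ∈ Pq A z`, `Bg A z` imply `Bg A z'` (ALQ (8)), and `A ⊆ A'`, `z' ∈ Pq A z`, `Bg A' z'` imply `Bg A z` (ALQ (10), (8)).
RUN 2.  Let `Fre H E cl`, `x ∈ E`, `K = {v | v ∈ E ∧ cl x v}` (`Clu H K x`), `A₀ = insert x H`, `big A z := z ∈ K ∧ Bg A z`.  For finite `A ⊇ A₀`: `Bq A K` (`TPC.z_KBQ`), so `z ∈ K → Pq A z ⊆ K` (ALQ (6)).  `BigU A₀ big`: `inv`: `g` fixes `x` and `H`: `K` is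
invariant (`fxE`, `fxc`), h1.  `pc`, `b4` (`z ∈ Pq A z'`), `b3` (h3), `b5` (h2): clear.  `b1`: `OutU A z`, `z ∈ K`; `B`, `z'`, `¬ Pr B z'`; `z' ∈ K`.  (i) `Nice n B z'`: h5: let `C ⊇ B`, `w ∈ Pq B z' ⊆ K`, `Fre C E2 cl2`, `Pq C w ⊆ E2`.  `E3 = E2 ∩ K`: `Fre C E3 cl2` (`bq`: `Bq C K`,
ALQ (3); `fxE`: `K` is invariant under `Fx C`; `inf`: the same `g`; the rest is clear); `w ∈ E3`, `Pq C w ⊆ E3`; for `b, v ∈ E3`, `cl2 b v`: `Rgd (insert b C) v` (`TPC.z_NFR` for `H, E, cl, x` and `C, E3, cl2`), h4: `Pr (insert b C) v`; h6 for `C, E3, cl2`: `Pr C w`.  (ii) `Rgd B z'`: h4.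
(iii) `E1, cl1, b`: `E1 ⊆ K` (`y ∈ Orb A v`, `v ∈ Pq A z ⊆ K`), `z_NFR` for `A, E1, cl1`: `Rgd B z'`, h4.  Contradiction in all cases.  `NBU`: (R2) for all finite `A ⊇ insert x H` and `z ∈ K`: not `Bg A z`, so `Pr A z` (`B = A`).
RUN 3.  `A₀ = ∅`, `big = Bg`.  `b1`: `OutU A z`, `B`, `z'`, `¬ Pr B z'`.  (i) `Nice n B z'`: h5: for `C, w, E2, cl2`: h6 with (R2) for `C, E2, cl2, b` and `A := insert b C`.  (ii) h4.  (iii) (R2) for `A, E1, cl1, b` and `B ⊇ insert b A`: `Pr B z'`.  `NBU`: not `Bg A z`, so `Pr A z`. -/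
def St_RUN : Prop :=
  ∀ (L : FirstOrder.Language.{0, 0}) (U : Type) [L.Structure U], Mon L U → NPf L U → FinN L U → NBU L U →
    ∀ Pr : Set U → U → Prop,
    (∀ (A : Set U) (z : U) (h : U ≃[L] U), A.Finite →
      (∃ B z', B.Finite ∧ A ⊆ B ∧ z' ∈ Pq L A z ∧ ¬ Pr B z') →
      ∃ B z', B.Finite ∧ h '' A ⊆ B ∧ z' ∈ Pq L (h '' A) (h z) ∧ ¬ Pr B z') →
    (∀ (A W : Set U) (z : U), A.Finite → W.Finite → Disjoint W (Pq L A z) →
      (∃ B z', B.Finite ∧ A ⊆ B ∧ z' ∈ Pq L A z ∧ ¬ Pr B z') →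
      ∃ B z', B.Finite ∧ A ∪ W ⊆ B ∧ z' ∈ Pq L (A ∪ W) z ∧ ¬ Pr B z') →
    (∀ (A : Set U) (z : U) (n : ℕ) (u : Fin n → U), A.Finite → Ist L A u →
      (∃ B z', B.Finite ∧ A ⊆ B ∧ z' ∈ Pq L A z ∧ ¬ Pr B z') →
      ∃ z1 ∈ Pq L A z, ∃ B z', B.Finite ∧ A ∪ range u ⊆ B ∧ z' ∈ Pq L (A ∪ range u) z1 ∧ ¬ Pr B z') →
    (∀ (B : Set U) (z : U), B.Finite → Rgd L B z → Pr B z) →
    (∀ (n : ℕ) (B : Set U) (z : U), B.Finite → Nice L n B z →
      (∀ (C : Set U) (w : U) (E : Set U) (cl : U → U → Prop), C.Finite → B ⊆ C → w ∈ Pq L B z →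
        Fre L C E cl → Pq L C w ⊆ E → Pr C w) → Pr B z) →
    (∀ (B E : Set U) (cl : U → U → Prop), Fre L B E cl →
      (∀ b ∈ E, ∀ z ∈ E, cl b z → Pr (insert b B) z) → ∀ z ∈ E, Pq L B z ⊆ E → Pr B z) →
    ∀ (A : Set U) (z : U), A.Finite → Pr A z

/-- [NOB] countably many models over finite sets, up to similarity.
HYPS: RUN.
PROOF.  RUN for `Pr B z := Cpt B (Pq B z)` (then the existential statement is `Big`): BGC (4), (3), BG3, BGC (5) (`TPC.z_BGC`, `TPC.z_BG3`), `TPC.q_PAR`; the last one: `TPC.q_FCT`: `Cpt B E`, CPT (1) (`Pq B z ⊆ E` is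
invariant, ALQ (5)).  So `Cpt A (Pq A z)` for all `z`; NRQ, CPT (3) for `Q = univ` (ALQ (1)). -/
def St_NOB : Prop :=
  ∀ (L : FirstOrder.Language.{0, 0}) (U : Type) [L.Structure U], Mon L U → NPf L U → FinN L U → NBU L U →
    ∀ A : Set U, A.Finite → Cpt L A (univ : Set U)

/-- [APM] all pieces have `PM`.
HYPS: RUN, NOB, BMC, PMQ, NIP, FRE.
PROOF.  RUN for `Pr B z := PM B (Pq B z)` (then the existential statement is `BigM`): BMC (4), (3), (5); PMQ (1); NIP; the last one: `Bq B E`, FRE (with NOB for `B`): `PM B E`; PMQ (2) for `Q = Pq B z` (ALQ (5)). -/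
def St_APM : Prop :=
  ∀ (L : FirstOrder.Language.{0, 0}) (U : Type) [L.Structure U], Countable L.Symbols → Mon L U → NPf L U →
    FinN L U → NBU L U → ∀ (A : Set U) (z : U), A.Finite → PM L A (Pq L A z)

/-- [TP1] the theorem in `U`.
HYPS: GAM, LBJ, GRP, BCH, PMQ, ATO, NOB, APM.
PROOF.  `M`, `M'` are `Md ∅`.  ATO for `A = ∅`, `G = Fx ∅` (NOB for `∅`): `M1 ⊆ M`, `M1' ⊆ M'`, `Lbj (Fx ∅) M1 M1' e`.  BCH for `a = ∅`: `Tel (Nx ∅) M1 M`; PMQ (4) for `A = ∅`, `Q = univ` (ALQ (1)) and APM: `SmN ∅ M1 M`, so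
`IsoM M1 M` (SMQ (7)); in the same way `IsoM M1' M'`.  `IsoM M1 M1'`: `tp (g ∘ a) = tp a` for automorphisms `g`.  `IsoM` is symmetric and transitive. -/
def St_TP1 : Prop :=
  ∀ (L : FirstOrder.Language.{0, 0}) (U : Type) [L.Structure U], Countable L.Symbols → Mon L U → NPf L U →
    FinN L U → NBU L U → ∀ M M' : Set U, IsEl L M → IsEl L M' → Teq (Fx L (∅ : Set U)) M M' ∅ →
    IsoM L M M'

/-! ### The fragment `L₁(T)` -/

/-- `p` is the complete type of a tuple in a model of `T` on `ℕ` -/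
def IsTy (L : FirstOrder.Language.{0, 0}) (T : L.Theory) {k : ℕ} (p : Set (L.Formula (Fin k))) : Prop :=
  ∃ S : L.Structure ℕ, @FirstOrder.Language.Theory.Model L ℕ S T ∧ ∃ a : Fin k → ℕ, p = @tp L ℕ S k a

/-- the fragment `L₁(T)` -/
inductive F1 (L : FirstOrder.Language.{0, 0}) (T : L.Theory) : ℕ → Type
  | fo {n : ℕ} (φ : L.Formula (Fin n)) : F1 L T n
  | ty {n k : ℕ} (p : Set (L.Formula (Fin k))) (hp : IsTy L T p) (f : Fin k → Fin n) : F1 L T n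
  | neg {n : ℕ} (φ : F1 L T n) : F1 L T n
  | and {n : ℕ} (φ ψ : F1 L T n) : F1 L T n
  | ex {n : ℕ} (φ : F1 L T (n + 1)) : F1 L T n

/-- satisfaction -/
def F1.Sat {L : FirstOrder.Language.{0, 0}} {T : L.Theory} (M : Type) [L.Structure M] :
    {n : ℕ} → F1 L T n → (Fin n → M) → Prop
  | _, .fo φ, v => φ.Realize v
  | _, .ty p _ f, v => ∀ φ ∈ p, φ.Realize (fun i => v (f i))
  | _, .neg φ, v => ¬ φ.Sat M v
  | _, .and φ ψ, v => φ.Sat M v ∧ ψ.Sat M v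
  | _, .ex φ, v => ∃ x : M, φ.Sat M (Fin.snoc v x : Fin (_ + 1) → M)

/-- [HIN] structures with the same `L₁(T)`-sentences are equivalent for the game.
HYPS: GAM.
PROOF.  Let `Φ, Σ` be a test for `Fx ∅`.  Claim: for all `m`, `k` there is a finite set `Θ` of formulas in `F1 L T k` such that for all `a, b : Fin k → ℕ`: if `a` satisfies the same formulas of `Θ` in `S` as `b` in `S'` then
`Tg (Fx ∅) Φ Σ (range u) (range u') m (range fun i => (u (a i), u' (b i)))`.  Induction on `m`.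
`Okp`: for `⟨n, R⟩ ∈ Φ`, `f : Fin n → Fin k`: if `R` is the orbit of `t`: the formula `ty (tp t) _ f` (`Mon.hom`: `R x ↔ tp x = tp t`; a complete type contained in a complete type is equal to it); if `R` is `Dp B`: `dp_inv`: `Dp ∅ R`, a first-order formula (`dp_form0`),
relabelled by `f`.
`m + 1`: `Θ` for `m`, `k + 1`, `= {θ_1, .., θ_r}`; for every `σ ∈ Σ` and every `ε ⊆ {1, .., r}` the formula `ex (ty (tp σ) _ (last variable) ∧ ⋀_(i ∈ ε) θ_i ∧ ⋀_(i ∉ ε) ¬ θ_i)`, and the formulas for `Okp`.  A move `u x`, conjugate to `σ`: let `ε` be the set of the `i` with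
`θ_i` true for `(a, x)`; the formula is true for `a`, so for `b`: `y` with the same values, `u' y` is conjugate to `σ` (`Mon.hom`), so to `u x`.  In the same way for moves `u' y`.
The statement: `k = 0` (`F1 L T 0`, sentences). -/
def St_HIN : Prop :=
  ∀ (L : FirstOrder.Language.{0, 0}) (U : Type) [L.Structure U], Mon L U → ∀ (T : L.Theory),
    (∀ (k : ℕ) (c : Fin k → U), IsTy L T (tp (L := L) c)) →
    ∀ (S S' : L.Structure ℕ) (u u' : ℕ → U),
    (∀ (n : ℕ) (a : Fin n → ℕ), @tp L ℕ S n a = tp (L := L) (u ∘ a)) →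
    (∀ (n : ℕ) (a : Fin n → ℕ), @tp L ℕ S' n a = tp (L := L) (u' ∘ a)) →
    (∀ σ : F1 L T 0, @F1.Sat L T ℕ S 0 σ finZeroElim ↔ @F1.Sat L T ℕ S' 0 σ finZeroElim) →
    Teq (Fx L (∅ : Set U)) (range u) (range u') ∅

/-- every model of `T` on `ℕ` is determined by its `L₁(T)`-sentences -/
def Rig1 (L : FirstOrder.Language.{0, 0}) (T : L.Theory) : Prop :=
  ∀ S S' : L.Structure ℕ, @FirstOrder.Language.Theory.Model L ℕ S T →
    @FirstOrder.Language.Theory.Model L ℕ S' T →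
    (∀ σ : F1 L T 0, @F1.Sat L T ℕ S 0 σ finZeroElim ↔ @F1.Sat L T ℕ S' 0 σ finZeroElim) →
    Nonempty (@FirstOrder.Language.Equiv L ℕ ℕ S S')

/-- [TP2] THE THEOREM: full T6 with the `L₁(T)` clause.
HYPS: TP1, HIN, NBT.
PROOF.  As `TPY.T6_of` (`TPY/Asm3.lean`).  `PerfT L T` or not; in the second case `CtT L T` (`TPY.all_T6`, `TPY/ALL3.lean`).  `S`, `S'` as in `Rig1`: `ThS L S' = ThS L S` (the sentences `fo`; a sentence is a formula with variables in `Fin 0`, `Empty`).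
not `PerfT L (ThS L S)` (models of `ThS L S` are models of `T`); `U`, `V`, `j : U → V`, `Mon L U`, `NPf L U`, `Cz L V` as in `T6_of`; `NBV L V`: as in `TPY.ct_of'` (`nbv_of`, `thm_OUT`, `TPY.m_RNB`, `w_ISV` (2)); `FinN L U`: `TPY.w_RU1`; `NBU L U`: NBT.
`WOM.thm_EMB`: `f, f' : ℕ → U` for `S`, `S'` (`U ⊨ ThS L S'`).  The types of tuples of `U` are `IsTy` (`U` is countable and infinite, so isomorphic to a structure on `ℕ`, `WOM.St_TRW`; `U ⊨ T`).  HIN: `Teq (Fx ∅) (range f) (range f') ∅`; TP1: `IsoM (range f) (range f')`; so `S ≅ S'` (as in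
`WOM/TRC.lean`). -/
def St_TP2 : Prop :=
  ∀ (L : FirstOrder.Language.{0, 0}), Countable L.Symbols → ∀ T : L.Theory,
    (∀ S : L.Structure ℕ, @FirstOrder.Language.Theory.Model L ℕ S T → @NipO L ℕ S) →
    (CtT L T ∧ Rig1 L T) ∨ PerfT L T

end Pool.Agent.TPQ
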